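import Pool.Agent.L5helper87.RR.Lower
import Pool.Agent.L5helper87.RR.Det
import Pool.Agent.L5helper87.RR.Upper

/-!
# MP_768539_lc: reachability in branching programs of bounded average rereading

`NBP` and `DBP` are nondeterministic and deterministic branching programs, the variable `(i, j)`
says whether the arc `(i, j)` is present in a digraph with the vertices `0, ..., n` all of whose
arcs go upwards, `Conn` says that there is a path from `0` to `n`, `Shallow` that no path has more
than five arcs, and `TestBound P m` that on every path of the program the variable `e` is tested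
at most `m e` times.
-/

set_option autoImplicit false

open Finset

namespace Pool.Agent.Results.MP_768539_lc.BoundedRereading

open Pool.Agent.H554R2.Sem Pool.Agent.L5helper87.RR

theorem out_unique {V : Type} (D : DBP V) (x : V → Bool) (q : D.State) (c c' : Bool)
    (h : D.Out x q c) (h' : D.Out x q c') : c = c' := by
  induction h with
  | sink h1 =>
    cases h' with
    | sink h2 => exact Sum.inr_injective (h1.symm.trans h2)
    | step h2 _ => exact absurd (h1.symm.trans h2) (by simp)
  | step h1 _ ih =>
    cases h' with
    | sink h2 => exact absurd (h1.symm.trans h2) (by simp)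
    | step h2 h3 =>
      have := Sum.inl_injective (h1.symm.trans h2)
      subst this
      exact ih h3

/-- There is a constant `C ≥ 1` such that (for all `n` and all `k ≥ 1`, the tests of the variables
being counted by `m` with `∑ m ≤ k n ^ 2`)
(1) every nondeterministic program which accepts exactly the digraphs without a path from `0`
to `n` has at least `2 ^ (n / C ^ k) - 1` nodes,
(2) so has every deterministic program which decides reachability, in both cases even if the
program need only be correct on digraphs of depth at most five;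
(3) a nondeterministic program which reads every arc at most once decides reachability with
`(n + 1) (n + 2)` nodes,
(4) a deterministic one decides it with `2 ^ (n + 1) (n + 1) ^ 2` nodes, and
(5) a nondeterministic one decides non-reachability with as many nodes. -/
theorem result : ∃ C : ℕ, 0 < C ∧
    (∀ n k : ℕ, 1 ≤ k → ∀ (P : NBP (Fin (n + 1) × Fin (n + 1)))
      (m : Fin (n + 1) × Fin (n + 1) → ℕ), TestBound P m → ∑ e, m e ≤ k * n ^ 2 →
      (∀ x : Inp n, Shallow x → (Accepts P x ↔ ¬ Conn x)) →
      2 ^ (n / C ^ k) ≤ Fintype.card P.State + 1) ∧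
    (∀ n k : ℕ, 1 ≤ k → ∀ (D : DBP (Fin (n + 1) × Fin (n + 1)))
      (m : Fin (n + 1) × Fin (n + 1) → ℕ), D.TestBound m → ∑ e, m e ≤ k * n ^ 2 →
      (∀ x : Inp n, Shallow x → ((D.Out x D.start true ↔ Conn x) ∧
        (D.Out x D.start false ↔ ¬ Conn x))) →
      2 ^ (n / C ^ k) ≤ Fintype.card D.State + 1) ∧
    (∀ n : ℕ, ∃ P : NBP (Fin (n + 1) × Fin (n + 1)), TestBound P (fun _ => 1) ∧
      Fintype.card P.State = (n + 1) * (n + 2) ∧ ∀ x : Inp n, Accepts P x ↔ Conn x) ∧
    (∀ n : ℕ, ∃ D : DBP (Fin (n + 1) × Fin (n + 1)), D.TestBound (fun _ => 1) ∧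
      Fintype.card D.State = 2 ^ (n + 1) * (n + 1) ^ 2 ∧
      ∀ x : Inp n, (D.Out x D.start true ↔ Conn x) ∧ (D.Out x D.start false ↔ ¬ Conn x)) ∧
    (∀ n : ℕ, ∃ P : NBP (Fin (n + 1) × Fin (n + 1)), TestBound P (fun _ => 1) ∧
      Fintype.card P.State = 2 ^ (n + 1) * (n + 1) ^ 2 ∧
      ∀ x : Inp n, Accepts P x ↔ ¬ Conn x) := by
  have hbfs : ∀ n (x : Inp n), ((bfs n).Out x (bfs n).start true ↔ Conn x) ∧
      ((bfs n).Out x (bfs n).start false ↔ ¬ Conn x) := by
    intro n x
    obtain ⟨c, h1, h2⟩ := bfs_computes x
    constructor
    · rw [← h2]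
      constructor
      · intro h; exact out_unique _ _ _ _ _ h1 h
      · rintro rfl; exact h1
    · rw [← h2, Bool.not_eq_true]
      constructor
      · intro h; exact out_unique _ _ _ _ _ h1 h
      · rintro rfl; exact h1
  refine ⟨2 ^ 4200, Nat.pow_pos (by norm_num), fun n k hk P m hP hm h => lower n k hk P m hP hm h,
    ?_, ?_, ?_, ?_⟩
  · intro n k hk D m hD hm h
    exact lower n k hk (toN D false) m (toN_testBound D false m hD) hm
      (fun x hx => (toN_accepts D false x).trans (h x hx).2)
  · intro n
    refine ⟨guess n, ?_, guess_card, guess_accepts⟩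
    intro l t h1 h2 e
    refine (guess_testBound l t h1 h2 e).trans ?_
    unfold once
    split_ifs <;> norm_num
  · intro n
    exact ⟨bfs n, bfs_testBound, bfs_card, hbfs n⟩
  · intro n
    exact ⟨toN (bfs n) false, toN_testBound _ _ _ bfs_testBound, bfs_card,
      fun x => (toN_accepts (bfs n) false x).trans (hbfs n x).2⟩

end Pool.Agent.Results.MP_768539_lc.BoundedRereading
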