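import Pool.Agent.L5helper52.Imb.Cost

set_option autoImplicit false

/-!
# One deterministic program for all machines with few entry configurations

A nondeterministic machine of space `s` has, on a given input, `N = 2 ^ O(s)` configurations; it
accepts if an accepting configuration can be reached in the digraph of its moves. A black box
simulation knows the machine only through the questions whether it can move from `u` to `v`. The
simulation of Savitch is of this kind and needs the space `O (log N ^ 2)`; it is not known whether
`O (log N)`, that is, a deterministic program with `N ^ O(1)` nodes, is enough.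

We show that one program with at most `24 N ^ (k + 7)` nodes treats all the machines with `N`
configurations for which at most `k` configurations which cannot be reached have a move to one
which can be reached. For symmetric machines, and if the digraph of the moves is Eulerian, there are
no such configurations; in general their number is at most the imbalance of the digraph. More
precisely, for every machine the program rejects if and only if for every accepting configuration
`t` there is a certificate with at most `k` entries for the fact that `t` cannot be reached: a set
of configurations which contains the first one but not `t`, which no move leaves, and into which at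
most `k` configurations outside can move.

Proof. If no move leaves `Y` and only configurations in a set `C` outside `Y` can move into `Y`,
then `Y` is a union of components of the undirected graph of the moves which do not start in `C`.
So it is enough to decide for every set `C` of at most `k` configurations whether the component of
the first configuration contains `t` or an element of `C`; this is done by walks along a universal
traversal sequence.
-/

namespace Pool.Agent.Results.MP_768539_lc.FewEntries

open Pool.Agent.L5helper52.Imb

/-- The machine with the moves `M` and the first configuration `s` accepts: some configuration of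
the set `A` of accepting configurations can be reached from `s`. -/
def Accepts {N : ℕ} (M : Fin N → Fin N → Bool) (s : Fin N) (A : Finset (Fin N)) : Prop :=
  ∃ t ∈ A, Reach M s t

/-- A certificate with at most `k` entries for the fact that `t` cannot be reached from `s`: a set
which contains `s` but not `t`, which no move leaves, such that at most `k` configurations outside
it have a move into it. -/
def Certificate {N : ℕ} (M : Fin N → Fin N → Bool) (k : ℕ) (s t : Fin N) (Y : Set (Fin N)) : Prop :=
  s ∈ Y ∧ t ∉ Y ∧ Closed M Y ∧ (entries M Y).ncard ≤ k

/-- For all `N`, `k`, `s`, `A` there is one deterministic program with at most `24 N ^ (k + 7)` nodes,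
which asks at most `12 N ^ (k + 6)` questions about single moves, such that for every machine with the
configurations `Fin N`: it rejects iff every accepting configuration has a certificate with at most
`k` entries; it answers correctly if the machine accepts, if at most `k` unreachable configurations
have a move to a reachable one, and if the imbalance of the digraph of the moves is at most `k`. -/
theorem result (N k : ℕ) (s : Fin N) (A : Finset (Fin N)) :
    ∃ B : BP (Fin N × Fin N) Bool, B.size ≤ 24 * N ^ (k + 7) ∧
      ∀ M : Fin N → Fin N → Bool, ∃ b : Bool,
        B.Answers (fun e => M e.1 e.2) (12 * N ^ (k + 6)) b ∧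
        (b = false ↔ ∀ t ∈ A, ∃ Y, Certificate M k s t Y) ∧
        (Accepts M s A → b = true) ∧
        ((entries M {v | Reach M s v}).ncard ≤ k → (b = true ↔ Accepts M s A)) ∧
        (imbalance M ≤ k → (b = true ↔ Accepts M s A)) := by
  classical
  have h1 : ∀ t : Fin N, Comp (24 * N ^ (k + 6)) (12 * N ^ (k + 5))
      (fun z : Fin N × Fin N → Bool =>
        decide (∀ Y : Set (Fin N), s ∈ Y → Closed (mat z) Y → (entries (mat z) Y).ncard ≤ k →
          t ∈ Y)) := fun t => exists_program_level N k s t
  have h2 := comp_any A.toList _ h1
  have hlen : A.toList.length ≤ N := by
    rw [Finset.length_toList]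
    exact (Finset.card_le_univ A).trans (by simp)
  have hS : A.toList.length * (24 * N ^ (k + 6)) ≤ 24 * N ^ (k + 7) := by
    calc A.toList.length * (24 * N ^ (k + 6)) ≤ N * (24 * N ^ (k + 6)) :=
        Nat.mul_le_mul_right _ hlen
      _ = 24 * N ^ (k + 7) := by ring
  have hT : A.toList.length * (12 * N ^ (k + 5)) ≤ 12 * N ^ (k + 6) := by
    calc A.toList.length * (12 * N ^ (k + 5)) ≤ N * (12 * N ^ (k + 5)) :=
        Nat.mul_le_mul_right _ hlen
      _ = 12 * N ^ (k + 6) := by ring
  obtain ⟨B, h3, h4⟩ := h2.mono hS hT
  refine ⟨B, h3, fun M => ⟨_, h4 fun e => M e.1 e.2, ?_, ?_, ?_, ?_⟩⟩
  · rw [List.any_eq_false]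
    constructor
    · intro h t ht
      have h5 := h t (Finset.mem_toList.2 ht)
      rw [decide_eq_true_iff] at h5
      push Not at h5
      obtain ⟨Y, hs, hc, he, hY⟩ := h5
      exact ⟨Y, hs, hY, hc, he⟩
    · intro h t ht
      obtain ⟨Y, hs, hY, hc, he⟩ := h t (Finset.mem_toList.1 ht)
      rw [decide_eq_true_iff]
      exact fun H => hY (H Y hs hc he)
  · rintro ⟨t, ht, h⟩
    rw [List.any_eq_true]
    exact ⟨t, Finset.mem_toList.2 ht, decide_eq_true (level_of_reach _ k s t h)⟩
  · intro hk
    rw [List.any_eq_true]
    constructor
    · rintro ⟨t, ht, h⟩
      exact ⟨t, Finset.mem_toList.1 ht, (reach_iff M k s t hk).1 (of_decide_eq_true h)⟩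
    · rintro ⟨t, ht, h⟩
      exact ⟨t, Finset.mem_toList.2 ht, decide_eq_true (level_of_reach _ k s t h)⟩
  · intro hk
    have hk' : (entries M {v | Reach M s v}).ncard ≤ k :=
      (entries_le_imbalance M _ (fun a b ha hab => ha.tail hab)).trans hk
    rw [List.any_eq_true]
    constructor
    · rintro ⟨t, ht, h⟩
      exact ⟨t, Finset.mem_toList.1 ht, (reach_iff M k s t hk').1 (of_decide_eq_true h)⟩
    · rintro ⟨t, ht, h⟩
      exact ⟨t, Finset.mem_toList.2 ht, decide_eq_true (level_of_reach _ k s t h)⟩

end Pool.Agent.Results.MP_768539_lc.FewEntries
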