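import Mathlib

/-!
# Reachability by programs with few guesses

A linearly bounded automaton accepts a word if and only if an accepting configuration can be reached
in its configuration graph; the LBA problem asks whether the guesses of nondeterministic automata
can be removed. Branching programs are the non-uniform form of space: reachability of `t` from `s` in
directed graphs on `n` vertices (`n ^ 2` variables) has a nondeterministic program with `n ^ 2`
reading and `n ^ 2` guessing nodes. How many of the nodes must guess?

We show that an alternating program (with existential and universal guessing nodes) needs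
`c n ^ 2 / log n` guessing nodes or `c n ^ 3 / log n` reading nodes. This holds

* on average: it is enough that the program is right for a fraction `1 / 2 + δ` of an explicit family
  of layered graphs, and hence also for randomized programs with error `1 / 2 - δ`;
* for arbitrary Boolean functions of the decisions of `r ≤ c n ^ 2 / log n` programs;
* although `n ^ 2 - 2 g ^ 2 > 7 n ^ 2 / 8` of the variables, where `n = 4 g + 2`, are known to the
  programs for free.

More generally it holds for every device which computes an arbitrary function of the connectivity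
pattern of few terminals in an undirected network. For the family the bound `n ^ 3 / log n` is sharp up
to the logarithm: an undirected network with `g ^ 3 + g ^ 2` contacts and two terminals is right for all
its members.

The proof combines the method of Nečiporuk with a uniform law of large numbers: outside a block of
variables the device knows an equivalence relation on the terminals and the ends of the contacts of
the block, which takes few values, whereas the answers for the block are `g ^ 2` independent random
bits.
-/

set_option autoImplicit false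

namespace Pool.Agent.Results.MP_768539_lc.FewGuesses

open Relation

/-! ### The finite class lemma -/

section Class

/-- `1` for agreement, `-1` for disagreement. -/
def sg (a b : Bool) : ℝ := if a = b then 1 else -1

theorem sum_exp_sg (l : ℝ) (b : Bool) :
    ∑ a : Bool, Real.exp (l * sg a b) = 2 * Real.cosh l := by
  rw [Fintype.sum_bool, Real.cosh_eq]
  cases b <;> simp [sg] <;> ring

theorem exp_moment {X : Type} [Fintype X] [DecidableEq X] (l : ℝ) (A : X → Bool) :
    ∑ R : X → Bool, Real.exp (l * ∑ x, sg (R x) (A x)) = (2 * Real.cosh l) ^ Fintype.card X := by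
  have h1 : ∀ R : X → Bool, Real.exp (l * ∑ x, sg (R x) (A x)) =
      ∏ x, Real.exp (l * sg (R x) (A x)) := by
    intro R
    rw [Finset.mul_sum, Real.exp_sum]
  simp_rw [h1]
  have h2 := Finset.prod_univ_sum (fun _ : X => (Finset.univ : Finset Bool))
    (fun x a => Real.exp (l * sg a (A x)))
  simp only [sum_exp_sg, Finset.prod_const, Finset.card_univ, Fintype.piFinset_univ] at h2
  exact h2.symm

/-- A predictor of the random function `R` which takes at most `|Y|` different values agrees with it
not much more often than a fixed function. -/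
theorem class_bound {X Y : Type} [Fintype X] [DecidableEq X] [Fintype Y]
    (d : (X → Bool) → Y) (Q : (X → Bool) → X → Bool) (hd : ∀ R R', d R = d R' → Q R = Q R')
    {l : ℝ} (hl : 0 < l) :
    ∑ R : X → Bool, ∑ x, sg (R x) (Q R x) ≤
      2 ^ Fintype.card X * (Real.log (Fintype.card Y) / l + Fintype.card X * l / 2) := by
  classical
  have hY : 0 < Fintype.card Y := Fintype.card_pos_iff.mpr ⟨d fun _ => false⟩
  have hY' : (0 : ℝ) < Fintype.card Y := by exact_mod_cast hY
  obtain ⟨N, hN⟩ : ∃ N : ℝ, N = ((Fintype.card X : ℕ) : ℝ) := ⟨_, rfl⟩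
  rw [← hN]
  set mu : ℝ := Real.log (Fintype.card Y) + N * (l ^ 2 / 2) with hmu
  set Φ : Y → X → Bool := Function.extend d Q (fun _ _ => false) with hΦ
  have hfac : ∀ R, Φ (d R) = Q R := fun R =>
    Function.FactorsThrough.extend_apply (fun a b h => hd a b h) _ R
  have hexp : ∀ R : X → Bool, Real.exp (l * ∑ x, sg (R x) (Q R x)) ≤
      ∑ y : Y, Real.exp (l * ∑ x, sg (R x) (Φ y x)) := by
    intro R
    rw [← hfac R]
    exact Finset.single_le_sum
      (f := fun y : Y => Real.exp (l * ∑ x, sg (R x) (Φ y x)))
      (fun y _ => (Real.exp_pos _).le) (Finset.mem_univ (d R))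
  have hsum : ∑ R : X → Bool, Real.exp (l * ∑ x, sg (R x) (Q R x)) ≤
      Fintype.card Y * (2 ^ Fintype.card X * Real.exp (N * (l ^ 2 / 2))) := by
    calc ∑ R : X → Bool, Real.exp (l * ∑ x, sg (R x) (Q R x))
        ≤ ∑ R : X → Bool, ∑ y : Y, Real.exp (l * ∑ x, sg (R x) (Φ y x)) :=
          Finset.sum_le_sum fun R _ => hexp R
      _ = ∑ y : Y, ∑ R : X → Bool, Real.exp (l * ∑ x, sg (R x) (Φ y x)) := Finset.sum_comm
      _ = ∑ _y : Y, (2 * Real.cosh l) ^ Fintype.card X :=
          Finset.sum_congr rfl fun y _ => exp_moment l (Φ y)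
      _ = Fintype.card Y * (2 * Real.cosh l) ^ Fintype.card X := by
          rw [Finset.sum_const, Finset.card_univ, nsmul_eq_mul]
      _ ≤ Fintype.card Y * (2 ^ Fintype.card X * Real.exp (N * (l ^ 2 / 2))) := by
          refine mul_le_mul_of_nonneg_left ?_ hY'.le
          rw [mul_pow]
          refine mul_le_mul_of_nonneg_left ?_ (by positivity)
          calc Real.cosh l ^ Fintype.card X ≤ Real.exp (l ^ 2 / 2) ^ Fintype.card X :=
                pow_le_pow_left₀ (Real.cosh_pos l).le (Real.cosh_le_exp_half_sq l) _
            _ = Real.exp (N * (l ^ 2 / 2)) := by rw [← Real.exp_nat_mul, hN]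
  have hpt : ∀ R : X → Bool, l * ∑ x, sg (R x) (Q R x) ≤
      Real.exp (-mu) * Real.exp (l * ∑ x, sg (R x) (Q R x)) + (mu - 1) := by
    intro R
    have h := Real.add_one_le_exp (l * ∑ x, sg (R x) (Q R x) - mu)
    rw [← Real.exp_add]
    have e : -mu + l * ∑ x, sg (R x) (Q R x) = l * ∑ x, sg (R x) (Q R x) - mu := by ring
    rw [e]
    linarith
  have htot : l * ∑ R : X → Bool, ∑ x, sg (R x) (Q R x) ≤ 2 ^ Fintype.card X * mu := by
    have hcard : (Fintype.card (X → Bool) : ℝ) = 2 ^ Fintype.card X := by
      rw [Fintype.card_fun, Fintype.card_bool]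
      push_cast
      ring
    have hmue : Real.exp (-mu) * (Fintype.card Y * (2 ^ Fintype.card X *
        Real.exp (N * (l ^ 2 / 2)))) = 2 ^ Fintype.card X := by
      have h1 : Real.exp (-mu) * (Fintype.card Y * Real.exp (N * (l ^ 2 / 2))) = 1 := by
        have h2 : (Fintype.card Y : ℝ) = Real.exp (Real.log (Fintype.card Y)) :=
          (Real.exp_log hY').symm
        rw [h2, ← Real.exp_add, ← Real.exp_add, hmu]
        rw [show -(Real.log (Fintype.card Y) + N * (l ^ 2 / 2)) +
          (Real.log (Fintype.card Y) + N * (l ^ 2 / 2)) = 0 by ring, Real.exp_zero]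
      calc Real.exp (-mu) * (Fintype.card Y * (2 ^ Fintype.card X * Real.exp (N * (l ^ 2 / 2))))
          = 2 ^ Fintype.card X *
            (Real.exp (-mu) * (Fintype.card Y * Real.exp (N * (l ^ 2 / 2)))) := by ring
        _ = 2 ^ Fintype.card X := by rw [h1, mul_one]
    calc l * ∑ R : X → Bool, ∑ x, sg (R x) (Q R x)
        = ∑ R : X → Bool, l * ∑ x, sg (R x) (Q R x) := by rw [Finset.mul_sum]
      _ ≤ ∑ R : X → Bool, (Real.exp (-mu) * Real.exp (l * ∑ x, sg (R x) (Q R x)) + (mu - 1)) :=
          Finset.sum_le_sum fun R _ => hpt R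
      _ = Real.exp (-mu) * ∑ R : X → Bool, Real.exp (l * ∑ x, sg (R x) (Q R x)) +
            2 ^ Fintype.card X * (mu - 1) := by
          rw [Finset.sum_add_distrib, ← Finset.mul_sum, Finset.sum_const, Finset.card_univ,
            nsmul_eq_mul, hcard]
      _ ≤ Real.exp (-mu) * (Fintype.card Y * (2 ^ Fintype.card X *
            Real.exp (N * (l ^ 2 / 2)))) + 2 ^ Fintype.card X * (mu - 1) := by
          gcongr
      _ = 2 ^ Fintype.card X * mu := by
          rw [hmue]
          ring
  have hfin : ∑ R : X → Bool, ∑ x, sg (R x) (Q R x) ≤ 2 ^ Fintype.card X * mu / l := by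
    rw [le_div_iff₀ hl]
    linarith
  refine hfin.trans (le_of_eq ?_)
  rw [hmu]
  field_simp

end Class

/-! ### The models -/

/-- An undirected network with variables in `V`, an arbitrary function of whose connectivity pattern
is the output. The variables in `M` are read for free: they determine the free edges in an arbitrary
way. The finitely many contacts are edges between fixed vertices `tail c` and `head c`; whether `c` is
closed depends on the variable `var c` and on the variables in `M` in an arbitrary way. Finitely
many vertices `term a` are the terminals; `out` is a fixed property of the relation which says which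
terminals are connected. -/
structure Device (V : Type) (M : Set V) where
  W : Type
  free : (M → Bool) → W → W → Prop
  C : Type
  fin : Finite C
  tail : C → W
  head : C → W
  var : C → V
  closed : C → (M → Bool) → Bool → Prop
  T : Type
  finT : Finite T
  term : T → W
  out : (T → T → Prop) → Prop

namespace Device

variable {V : Type} {M : Set V} (D : Device V M)

/-- The number of contacts. -/
noncomputable def size : ℕ := Nat.card D.C

/-- The number of terminals. -/
noncomputable def terminals : ℕ := Nat.card D.T

/-- The edges for the input `x`. -/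
def Edge (x : V → Bool) (u v : D.W) : Prop :=
  D.free (fun m => x m) u v ∨
    ∃ c, D.closed c (fun m => x m) (x (D.var c)) ∧ D.tail c = u ∧ D.head c = v

/-- The vertices `u` and `v` are connected: every edge may be used in both directions. -/
def Joined (x : V → Bool) (u v : D.W) : Prop :=
  ReflTransGen (fun u v => D.Edge x u v ∨ D.Edge x v u) u v

/-- The device accepts `x`. -/
def Accepts (x : V → Bool) : Prop := D.out fun a b => D.Joined x (D.term a) (D.term b)

end Device

/-! ### What the device knows about a block -/

section Structure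

variable {V : Type} {M : Set V} (D : Device V M) (B : Set V)

/-- The contacts which read a variable of the block. -/
abbrev CB : Type := {c : D.C // D.var c ∈ B}

/-- The terminals and the ends of the contacts of the block. -/
abbrev Pt : Type := D.T ⊕ (CB D B × Bool)

/-- The vertices at these points. -/
def pos : Pt D B → D.W
  | .inl a => D.term a
  | .inr (c, false) => D.tail c.1
  | .inr (c, true) => D.head c.1

/-- The edges outside the block. -/
def OEdge (r : V → Bool) (u v : D.W) : Prop :=
  D.free (fun m => r m) u v ∨ ∃ c, D.var c ∉ B ∧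
    D.closed c (fun m => r m) (r (D.var c)) ∧ D.tail c = u ∧ D.head c = v

/-- Connectivity outside the block. -/
def OC (r : V → Bool) (u v : D.W) : Prop :=
  ReflTransGen (fun u v => OEdge D B r u v ∨ OEdge D B r v u) u v

theorem OC_symm {r : V → Bool} {u v : D.W} (h : OC D B r u v) : OC D B r v u := by
  unfold OC at h ⊢
  induction h with
  | refl => exact .refl
  | tail _ h ih => exact ih.head h.symm

/-- What the outside knows: an equivalence relation on the points. -/
def oset (r : V → Bool) : Setoid (Pt D B) where
  r i j := OC D B r (pos D B i) (pos D B j)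
  iseqv := ⟨fun _ => ReflTransGen.refl, fun h => OC_symm D B h, fun h h' => h.trans h'⟩

open Classical in
/-- The types of the contacts of the block. -/
noncomputable def typ (r : V → Bool) (c : CB D B) (b : Bool) : Bool :=
  decide (D.closed c.1 (fun m => r m) b)

/-- A step on the points. -/
def TStep (R : Setoid (Pt D B)) (k : CB D B → Bool → Bool) (x : V → Bool) (i j : Pt D B) : Prop :=
  R.r i j ∨ ∃ c : CB D B, k c (x (D.var c.1)) = true ∧
    ((i = .inr (c, false) ∧ j = .inr (c, true)) ∨ (i = .inr (c, true) ∧ j = .inr (c, false)))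

variable {D B}

theorem restrict_eq (hMB : ∀ v ∈ B, v ∉ M) {r x : V → Bool} (h : ∀ v, v ∉ B → x v = r v) :
    (fun m : M => x m) = (fun m : M => r m) := by
  funext m
  exact h m fun hm => hMB m hm m.2

theorem joined_iff (hMB : ∀ v ∈ B, v ∉ M) {r x : V → Bool} (h : ∀ v, v ∉ B → x v = r v)
    (a b : D.T) :
    D.Joined x (D.term a) (D.term b) ↔
      ReflTransGen (TStep D B (oset D B r) (typ D B r) x) (.inl a) (.inl b) := by
  classical
  have hres := restrict_eq hMB h
  have hedge : ∀ {u v : D.W}, OEdge D B r u v → D.Edge x u v := by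
    rintro u v (h1 | ⟨c, hB, hc, h1, h2⟩)
    · left
      rw [hres]
      exact h1
    · right
      refine ⟨c, ?_, h1, h2⟩
      rw [hres, h _ hB]
      exact hc
  constructor
  · intro hab
    have key : ∀ w, ReflTransGen (fun u v => D.Edge x u v ∨ D.Edge x v u) (D.term a) w →
        ∃ i, ReflTransGen (TStep D B (oset D B r) (typ D B r) x) (.inl a) i ∧
          OC D B r (pos D B i) w := by
      intro w hw
      induction hw with
      | refl => exact ⟨.inl a, .refl, .refl⟩
      | @tail u v _ hs ih =>
        obtain ⟨i, hi, hiu⟩ := ih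
        rcases hs with (hs | ⟨c, hc, rfl, rfl⟩) | (hs | ⟨c, hc, rfl, rfl⟩)
        · rw [hres] at hs
          exact ⟨i, hi, hiu.tail (Or.inl (Or.inl hs))⟩
        · rw [hres] at hc
          by_cases hB : D.var c ∈ B
          · refine ⟨.inr (⟨c, hB⟩, true), ?_, .refl⟩
            refine (hi.tail (Or.inl hiu :
              TStep D B (oset D B r) (typ D B r) x i (.inr (⟨c, hB⟩, false)))).tail
                (Or.inr ⟨⟨c, hB⟩, ?_, Or.inl ⟨rfl, rfl⟩⟩)
            unfold typ
            exact decide_eq_true hc
          · rw [h _ hB] at hc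
            exact ⟨i, hi, hiu.tail (Or.inl (Or.inr ⟨c, hB, hc, rfl, rfl⟩))⟩
        · rw [hres] at hs
          exact ⟨i, hi, hiu.tail (Or.inr (Or.inl hs))⟩
        · rw [hres] at hc
          by_cases hB : D.var c ∈ B
          · refine ⟨.inr (⟨c, hB⟩, false), ?_, .refl⟩
            refine (hi.tail (Or.inl hiu :
              TStep D B (oset D B r) (typ D B r) x i (.inr (⟨c, hB⟩, true)))).tail
                (Or.inr ⟨⟨c, hB⟩, ?_, Or.inr ⟨rfl, rfl⟩⟩)
            unfold typ
            exact decide_eq_true hc
          · rw [h _ hB] at hc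
            exact ⟨i, hi, hiu.tail (Or.inr (Or.inr ⟨c, hB, hc, rfl, rfl⟩))⟩
    obtain ⟨i, hi, his⟩ := key _ hab
    exact hi.tail (Or.inl his)
  · intro hab
    have key : ∀ i, ReflTransGen (TStep D B (oset D B r) (typ D B r) x) (.inl a) i →
        D.Joined x (D.term a) (pos D B i) := by
      intro i hi
      induction hi with
      | refl => exact .refl
      | @tail i j _ hs ih =>
        rcases hs with hs | ⟨c, hc, hs⟩
        · refine ReflTransGen.trans ih ?_
          have h' : OC D B r (pos D B i) (pos D B j) := hs
          refine ReflTransGen.mono ?_ _ _ h'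
          rintro u v (h1 | h1)
          · exact Or.inl (hedge h1)
          · exact Or.inr (hedge h1)
        · have hc' : D.closed c.1 (fun m => x m) (x (D.var c.1)) := by
            rw [hres]
            unfold typ at hc
            exact of_decide_eq_true hc
          rcases hs with ⟨rfl, rfl⟩ | ⟨rfl, rfl⟩
          · exact ReflTransGen.tail ih (Or.inl (Or.inr ⟨c.1, hc', rfl, rfl⟩))
          · exact ReflTransGen.tail ih (Or.inr (Or.inr ⟨c.1, hc', rfl, rfl⟩))
    exact key _ hab

/-- A choice of representatives, which determines the equivalence relation. -/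
noncomputable def rep {I : Type} (R : Setoid I) (i : I) : I := (Quotient.mk R i).out

theorem rep_injective (I : Type) : Function.Injective (rep : Setoid I → I → I) := by
  intro R R' h
  have key : ∀ R : Setoid I, ∀ i j, R.r i j ↔ rep R i = rep R j := by
    intro R i j
    constructor
    · intro hij
      unfold rep
      rw [Quotient.sound hij]
    · intro hij
      have : Quotient.mk R i = Quotient.mk R j := by
        unfold rep at hij
        exact Quotient.out_injective hij
      exact Quotient.exact this
  refine Setoid.ext fun i j => ?_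
  exact ((key R i j).trans (by rw [h])).trans (key R' i j).symm

variable (D B)

/-- The data of a block. -/
abbrev Data : Type := (Pt D B → Pt D B) × (CB D B → Bool → Bool)

/-- What the device knows about a block. -/
noncomputable def dat (r : V → Bool) : Data D B := (rep (oset D B r), typ D B r)

variable {D B}

theorem accepts_iff (hMB : ∀ v ∈ B, v ∉ M) {r r' x x' : V → Bool} (h : ∀ v, v ∉ B → x v = r v)
    (h' : ∀ v, v ∉ B → x' v = r' v) (hx : ∀ v ∈ B, x v = x' v) (hd : dat D B r = dat D B r') :
    D.Accepts x ↔ D.Accepts x' := by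
  have h1 : oset D B r = oset D B r' := rep_injective _ (Prod.ext_iff.mp hd).1
  have h2 : typ D B r = typ D B r' := (Prod.ext_iff.mp hd).2
  have h3 : TStep D B (oset D B r) (typ D B r) x = TStep D B (oset D B r') (typ D B r') x' := by
    rw [h1, h2]
    funext i j
    unfold TStep
    refine propext (or_congr Iff.rfl (exists_congr fun c => ?_))
    rw [hx _ c.2]
  have h4 : (fun a b => D.Joined x (D.term a) (D.term b)) =
      (fun a b => D.Joined x' (D.term a) (D.term b)) := by
    funext a b
    refine propext ((joined_iff hMB h a b).trans (Iff.trans ?_ (joined_iff hMB h' a b).symm))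
    rw [h3]
  unfold Device.Accepts
  rw [h4]

instance : Finite (Data D B) := by
  have := D.fin
  have := D.finT
  infer_instance

theorem card_data : Nat.card (Data D B) =
    (D.terminals + 2 * Nat.card (CB D B)) ^ (D.terminals + 2 * Nat.card (CB D B)) *
      4 ^ Nat.card (CB D B) := by
  have := D.fin
  have := D.finT
  have h1 : Nat.card (Pt D B) = D.terminals + 2 * Nat.card (CB D B) := by
    rw [Nat.card_sum, Nat.card_prod]
    simp [Device.terminals]
    ring
  have h2 : Nat.card (Bool → Bool) = 4 := by simp
  rw [Nat.card_prod, Nat.card_fun, Nat.card_fun, h1, h2]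

end Structure

/-! ### Reachability -/

/-- The `4 g + 2` vertices: `s`, `t` and four layers. -/
inductive Vtx (g : ℕ) : Type
  | s : Vtx g
  | t : Vtx g
  | a (i : ZMod g) : Vtx g
  | b (i : ZMod g) : Vtx g
  | c (i : ZMod g) : Vtx g
  | d (i : ZMod g) : Vtx g

/-- A directed graph on the vertices is given by `(4 g + 2) ^ 2` bits. -/
abbrev Pair (g : ℕ) : Type := Vtx g × Vtx g

/-- `t` can be reached from `s` in the directed graph `x`. -/
def Reach {g : ℕ} (x : Pair g → Bool) : Prop :=
  ReflTransGen (fun u v => x (u, v) = true) Vtx.s Vtx.t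

/-- The `2 g ^ 2` pairs between the first and the second layer and between the third and the
fourth. -/
def Outer (g : ℕ) : Set (Pair g) :=
  {e | ∃ i k, e = (Vtx.a i, Vtx.b k) ∨ e = (Vtx.c i, Vtx.d k)}

/-- The directed graphs of the hard family: one edge `a i → b (i + m)`, one edge `c j → d (j + m)`,
the edges `b k → c l` for `R k l = 1`, and all edges from `s` to the first layer and from the last
layer to `t`. -/
def hard {g : ℕ} (m i j : ZMod g) (R : ZMod g → ZMod g → Bool) : Pair g → Bool
  | (.s, .a _) => true
  | (.a i', .b k) => decide (i' = i ∧ k = i + m)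
  | (.b k, .c l) => R k l
  | (.c j', .d l) => decide (j' = j ∧ l = j + m)
  | (.d _, .t) => true
  | _ => false

section Hard

variable {g : ℕ}

/-- What holds at the vertices which can be reached. -/
def Good (m i j : ZMod g) (R : ZMod g → ZMod g → Bool) : Vtx g → Prop
  | .s => True
  | .a _ => True
  | .b k => k = i + m
  | .c l => R (i + m) l = true
  | .d _ => R (i + m) j = true
  | .t => R (i + m) j = true

theorem good_step {m i j : ZMod g} {R : ZMod g → ZMod g → Bool} {u v : Vtx g}
    (hu : Good m i j R u) (h : hard m i j R (u, v) = true) : Good m i j R v := by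
  cases u <;> cases v <;> simp_all [hard, Good]

theorem reach_iff (m i j : ZMod g) (R : ZMod g → ZMod g → Bool) :
    Reach (hard m i j R) ↔ R (i + m) j = true := by
  constructor
  · intro h
    have key : ∀ v : Vtx g, ReflTransGen (fun u v => hard m i j R (u, v) = true) Vtx.s v →
        Good m i j R v := by
      intro v hv
      induction hv with
      | refl => trivial
      | tail _ h ih => exact good_step ih h
    exact key _ h
  · intro h
    have h1 : hard m i j R (Vtx.s, Vtx.a i) = true := rfl
    have h2 : hard m i j R (Vtx.a i, Vtx.b (i + m)) = true := by simp [hard]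
    have h3 : hard m i j R (Vtx.b (i + m), Vtx.c j) = true := h
    have h4 : hard m i j R (Vtx.c j, Vtx.d (j + m)) = true := by simp [hard]
    have h5 : hard m i j R (Vtx.d (j + m), Vtx.t) = true := rfl
    exact .head h1 (.head h2 (.head h3 (.head h4 (.single h5))))

/-- The variables of the block `m`. -/
def blk (g : ℕ) (m : ZMod g) : Set (Pair g) :=
  {e | ∃ i, e = (Vtx.a i, Vtx.b (i + m)) ∨ e = (Vtx.c i, Vtx.d (i + m))}

theorem blk_disjoint {m m' : ZMod g} {e : Pair g} (h : e ∈ blk g m) (h' : e ∈ blk g m') :
    m = m' := by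
  obtain ⟨i, rfl | rfl⟩ := h <;> obtain ⟨i', h' | h'⟩ := h' <;>
    simp only [Prod.mk.injEq, Vtx.a.injEq, Vtx.b.injEq, Vtx.c.injEq, Vtx.d.injEq, reduceCtorEq,
      and_false] at h' <;>
    · obtain ⟨rfl, h'⟩ := h'
      exact add_left_cancel h'

theorem blk_outer {m : ZMod g} : ∀ e ∈ blk g m, e ∉ (Outer g)ᶜ := by
  rintro e ⟨i, h⟩ he
  exact he ⟨i, i + m, h⟩

/-- The input with the empty block. -/
def base (g : ℕ) (R : ZMod g → ZMod g → Bool) : Pair g → Bool
  | (.s, .a _) => true
  | (.b k, .c l) => R k l
  | (.d _, .t) => true
  | _ => false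

theorem hard_base (m i j : ZMod g) (R : ZMod g → ZMod g → Bool) (e : Pair g) (he : e ∉ blk g m) :
    hard m i j R e = base g R e := by
  obtain ⟨u, v⟩ := e
  cases u <;> cases v <;> simp only [hard, base]
  · rename_i i' k
    rw [decide_eq_false_iff_not]
    rintro ⟨rfl, rfl⟩
    exact he ⟨i', Or.inl rfl⟩
  · rename_i j' l
    rw [decide_eq_false_iff_not]
    rintro ⟨rfl, rfl⟩
    exact he ⟨j', Or.inr rfl⟩

theorem hard_block (m i j : ZMod g) (R R' : ZMod g → ZMod g → Bool) (e : Pair g)
    (he : e ∈ blk g m) : hard m i j R e = hard m i j R' e := by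
  obtain ⟨k, rfl | rfl⟩ := he <;> rfl

end Hard

/-! ### The lower bound -/

section Lower

variable {g : ℕ}

/-- The parameters of the hard family. -/
abbrev Par (g : ℕ) : Type := ZMod g × ZMod g × ZMod g × (ZMod g → ZMod g → Bool)

/-- The members of the hard family. -/
def hardAt (p : Par g) : Pair g → Bool := hard p.1 p.2.1 p.2.2.1 p.2.2.2

/-- The device decides reachability in the directed graph `x`. -/
def Device.RightAt (D : Device (Pair g) (Outer g)ᶜ) (x : Pair g → Bool) : Prop :=
  D.Accepts x ↔ Reach x

open Classical in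
/-- `1` if the device is right, `-1` if not. -/
noncomputable def val (D : Device (Pair g) (Outer g)ᶜ) (p : Par g) : ℝ :=
  if D.RightAt (hardAt p) then 1 else -1

open Classical in
/-- The predictions of the device for the block `m`. -/
noncomputable def pred (D : Device (Pair g) (Outer g)ᶜ) (m : ZMod g)
    (R : ZMod g × ZMod g → Bool) (x : ZMod g × ZMod g) : Bool :=
  decide (D.Accepts (hard m (x.1 - m) x.2 (Function.curry R)))

theorem sg_pred (D : Device (Pair g) (Outer g)ᶜ) (m : ZMod g) (R : ZMod g × ZMod g → Bool)
    (x : ZMod g × ZMod g) :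
    sg (R x) (pred D m R x) = val D (m, x.1 - m, x.2, Function.curry R) := by
  classical
  have h1 : Reach (hard m (x.1 - m) x.2 (Function.curry R)) ↔ R x = true := by
    rw [reach_iff, sub_add_cancel]
    rfl
  unfold sg val
  refine if_congr ?_ rfl rfl
  unfold Device.RightAt
  change R x = pred D m R x ↔ (D.Accepts (hard m (x.1 - m) x.2 (Function.curry R)) ↔
    Reach (hard m (x.1 - m) x.2 (Function.curry R)))
  rw [h1, Bool.eq_iff_iff]
  unfold pred
  rw [decide_eq_true_iff]
  exact ⟨Iff.symm, Iff.symm⟩

theorem block_bound [NeZero g] (D : Device (Pair g) (Outer g)ᶜ) (m : ZMod g) {l : ℝ}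
    (hl : 0 < l) :
    ∑ i : ZMod g, ∑ j : ZMod g, ∑ R : ZMod g → ZMod g → Bool, val D (m, i, j, R) ≤
      2 ^ (g * g) * (Real.log (Nat.card (Data D (blk g m))) / l + (g * g : ℕ) * l / 2) := by
  classical
  have hfin := Fintype.ofFinite (Data D (blk g m))
  have h := class_bound (X := ZMod g × ZMod g)
    (fun R => dat D (blk g m) (base g (Function.curry R))) (pred D m) (by
      intro R R' h
      funext x
      unfold pred
      rw [decide_eq_decide]
      exact accepts_iff (blk_outer (m := m))
        (fun v hv => hard_base m (x.1 - m) x.2 (Function.curry R) v hv)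
        (fun v hv => hard_base m (x.1 - m) x.2 (Function.curry R') v hv)
        (fun v hv => hard_block m (x.1 - m) x.2 (Function.curry R) (Function.curry R') v hv) h) hl
  have hcard : Fintype.card (ZMod g × ZMod g) = g * g := by
    rw [Fintype.card_prod, ZMod.card]
  rw [hcard, ← Nat.card_eq_fintype_card] at h
  refine le_trans (le_of_eq (Eq.symm ?_)) h
  have h2 : ∀ x : ZMod g × ZMod g, ∑ R : ZMod g × ZMod g → Bool, sg (R x) (pred D m R x) =
      ∑ R : ZMod g → ZMod g → Bool, val D (m, x.1 - m, x.2, R) := by
    intro x
    simp_rw [sg_pred]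
    exact Equiv.sum_comp (Equiv.curry (ZMod g) (ZMod g) Bool)
      fun R => val D (m, x.1 - m, x.2, R)
  rw [Finset.sum_comm, Finset.sum_congr rfl fun x _ => h2 x, Fintype.sum_prod_type]
  exact Equiv.sum_comp (Equiv.subRight m) fun i => ∑ j : ZMod g,
    ∑ R : ZMod g → ZMod g → Bool, val D (m, i, j, R)

theorem sum_blocks [NeZero g] (D : Device (Pair g) (Outer g)ᶜ) :
    ∑ m : ZMod g, Nat.card (CB D (blk g m)) ≤ D.size := by
  classical
  have := D.fin
  rw [← Nat.card_sigma]
  refine Nat.card_le_card_of_injective (fun p : (Σ m : ZMod g, CB D (blk g m)) => (p.2.1 : D.C)) ?_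
  rintro ⟨m, e, he⟩ ⟨m', e', he'⟩ h
  change e = e' at h
  subst h
  obtain rfl := blk_disjoint he he'
  rfl

theorem log_data (D : Device (Pair g) (Outer g)ᶜ) (B : Set (Pair g))
    (hB : Nat.card (CB D B) ≤ D.size) :
    Real.log (Nat.card (Data D B)) ≤ (D.terminals + 4 * Nat.card (CB D B)) *
      Real.log (D.terminals + 2 * D.size) := by
  obtain ⟨k, hk⟩ : ∃ k, k = Nat.card (CB D B) := ⟨_, rfl⟩
  rw [card_data, ← hk]
  rw [← hk] at hB
  rcases Nat.eq_zero_or_pos (D.terminals + 2 * k) with h0 | h0
  · have h1 : D.terminals = 0 := by omega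
    have h2 : k = 0 := by omega
    rw [h1, h2]
    simp
  · have h0' : (0 : ℝ) < D.terminals + 2 * k := by exact_mod_cast h0
    have h1 : Real.log (((D.terminals + 2 * k) ^ (D.terminals + 2 * k) * 4 ^ k : ℕ) : ℝ) =
        (D.terminals + 2 * k) * Real.log (D.terminals + 2 * k) + k * (2 * Real.log 2) := by
      push_cast
      rw [Real.log_mul (pow_pos h0' _).ne' (by positivity), Real.log_pow, Real.log_pow]
      push_cast
      rw [show (4 : ℝ) = 2 ^ 2 by norm_num, Real.log_pow]
      push_cast
      ring
    rw [h1]
    have hBr : (k : ℝ) ≤ D.size := by exact_mod_cast hB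
    have h2 : Real.log (D.terminals + 2 * k) ≤ Real.log (D.terminals + 2 * D.size) :=
      Real.log_le_log h0' (by linarith)
    have h3 : (k : ℝ) * (2 * Real.log 2) ≤ 2 * k * Real.log (D.terminals + 2 * D.size) := by
      rcases Nat.eq_zero_or_pos k with hk0 | hk0
      · rw [hk0]
        simp
      · have h4 : (2 : ℝ) ≤ D.terminals + 2 * D.size := by
          have : 2 ≤ D.terminals + 2 * D.size := by omega
          exact_mod_cast this
        have h5 : Real.log 2 ≤ Real.log (D.terminals + 2 * D.size) :=
          Real.log_le_log (by norm_num) h4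
        have h6 : (0 : ℝ) ≤ k := by positivity
        nlinarith
    have h4 : (D.terminals + 2 * k : ℝ) * Real.log (D.terminals + 2 * k) ≤
        (D.terminals + 2 * k) * Real.log (D.terminals + 2 * D.size) :=
      mul_le_mul_of_nonneg_left h2 h0'.le
    calc (D.terminals + 2 * k : ℝ) * Real.log (D.terminals + 2 * k) + k * (2 * Real.log 2)
        ≤ (D.terminals + 2 * k) * Real.log (D.terminals + 2 * D.size) +
          2 * k * Real.log (D.terminals + 2 * D.size) := add_le_add h4 h3
      _ = (D.terminals + 4 * k) * Real.log (D.terminals + 2 * D.size) := by ring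

open Classical in
theorem sum_val (D : Device (Pair g) (Outer g)ᶜ) [NeZero g] :
    ∑ p : Par g, val D p =
      2 * Nat.card {p : Par g // D.RightAt (hardAt p)} - Nat.card (Par g) := by
  have h1 : ∀ p : Par g, val D p = 2 * (if D.RightAt (hardAt p) then 1 else 0) - 1 := by
    intro p
    unfold val
    split_ifs <;> norm_num
  simp_rw [h1]
  rw [Finset.sum_sub_distrib, ← Finset.mul_sum, Finset.sum_boole, Finset.sum_const,
    Finset.card_univ, Nat.card_eq_fintype_card, Nat.card_eq_fintype_card, Fintype.card_subtype]
  simp

theorem card_par [NeZero g] : Nat.card (Par g) = g ^ 3 * 2 ^ (g * g) := by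
  rw [Nat.card_prod, Nat.card_prod, Nat.card_prod, Nat.card_fun, Nat.card_fun, Nat.card_zmod,
    ← pow_mul]
  simp
  ring

/-- The lower bound on average. -/
theorem lower [NeZero g] (D : Device (Pair g) (Outer g)ᶜ) {δ : ℝ} (hδ : 0 < δ)
    (h : (1 / 2 + δ) * Nat.card (Par g) ≤ Nat.card {p : Par g // D.RightAt (hardAt p)}) :
    2 * δ ^ 2 * g ^ 3 ≤ (g * D.terminals + 4 * D.size) *
      Real.log (D.terminals + 2 * D.size) := by
  classical
  have h1 : 2 * δ * (g ^ 3 * 2 ^ (g * g)) ≤ ∑ p : Par g, val D p := by
    rw [sum_val]
    have h2 : (Nat.card (Par g) : ℝ) = g ^ 3 * 2 ^ (g * g) := by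
      rw [card_par]
      push_cast
      ring
    rw [← h2]
    linarith
  have h2 : ∑ p : Par g, val D p = ∑ m : ZMod g, ∑ i : ZMod g, ∑ j : ZMod g,
      ∑ R : ZMod g → ZMod g → Bool, val D (m, i, j, R) := by
    rw [Fintype.sum_prod_type]
    refine Finset.sum_congr rfl fun m _ => ?_
    rw [Fintype.sum_prod_type]
    refine Finset.sum_congr rfl fun i _ => ?_
    rw [Fintype.sum_prod_type]
  have h3 : ∑ p : Par g, val D p ≤ ∑ m : ZMod g,
      2 ^ (g * g) * (Real.log (Nat.card (Data D (blk g m))) / (2 * δ) +
        (g * g : ℕ) * (2 * δ) / 2) := by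
    rw [h2]
    exact Finset.sum_le_sum fun m _ => block_bound D m (by positivity)
  have h4 : ∑ m : ZMod g, Real.log (Nat.card (Data D (blk g m))) ≤
      (g * D.terminals + 4 * D.size) * Real.log (D.terminals + 2 * D.size) := by
    have hsb := sum_blocks D
    have hlog : 0 ≤ Real.log (D.terminals + 2 * D.size : ℝ) := by
      have : (D.terminals + 2 * D.size : ℝ) = ((D.terminals + 2 * D.size : ℕ) : ℝ) := by
        push_cast
        ring
      rw [this]
      exact Real.log_natCast_nonneg _
    calc ∑ m : ZMod g, Real.log (Nat.card (Data D (blk g m)))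
        ≤ ∑ m : ZMod g, (D.terminals + 4 * Nat.card (CB D (blk g m))) *
          Real.log (D.terminals + 2 * D.size) := by
          refine Finset.sum_le_sum fun m _ => log_data D _ ?_
          exact (Finset.single_le_sum (f := fun m : ZMod g => Nat.card (CB D (blk g m)))
            (fun _ _ => Nat.zero_le _) (Finset.mem_univ m)).trans hsb
      _ = (g * D.terminals + 4 * ((∑ m : ZMod g, Nat.card (CB D (blk g m)) : ℕ) : ℝ)) *
          Real.log (D.terminals + 2 * D.size) := by
          rw [← Finset.sum_mul, Finset.sum_add_distrib, Finset.sum_const, Finset.card_univ,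
            ZMod.card, nsmul_eq_mul, ← Finset.mul_sum, Nat.cast_sum]
      _ ≤ _ := by
          refine mul_le_mul_of_nonneg_right ?_ hlog
          have : ((∑ m : ZMod g, Nat.card (CB D (blk g m)) : ℕ) : ℝ) ≤ D.size := by
            exact_mod_cast hsb
          linarith
  have h5 : ∑ m : ZMod g, 2 ^ (g * g) * (Real.log (Nat.card (Data D (blk g m))) / (2 * δ) +
        (g * g : ℕ) * (2 * δ) / 2) = (2 : ℝ) ^ (g * g) *
        ((∑ m : ZMod g, Real.log (Nat.card (Data D (blk g m)))) / (2 * δ) + g ^ 3 * δ) := by
    rw [← Finset.mul_sum, Finset.sum_add_distrib, ← Finset.sum_div, Finset.sum_const,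
      Finset.card_univ, ZMod.card, nsmul_eq_mul]
    push_cast
    ring
  rw [h5] at h3
  have h6 : 2 * δ * g ^ 3 ≤
      (∑ m : ZMod g, Real.log (Nat.card (Data D (blk g m)))) / (2 * δ) + g ^ 3 * δ := by
    have h7 : (2 : ℝ) ^ (g * g) * (2 * δ * g ^ 3) ≤ (2 : ℝ) ^ (g * g) *
        ((∑ m : ZMod g, Real.log (Nat.card (Data D (blk g m)))) / (2 * δ) + g ^ 3 * δ) := by
      calc (2 : ℝ) ^ (g * g) * (2 * δ * g ^ 3) = 2 * δ * (g ^ 3 * 2 ^ (g * g)) := by ring
        _ ≤ _ := h1.trans h3
    exact le_of_mul_le_mul_left h7 (by positivity)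
  have h8 : δ * g ^ 3 ≤
      (∑ m : ZMod g, Real.log (Nat.card (Data D (blk g m)))) / (2 * δ) := by linarith
  rw [le_div_iff₀ (by positivity)] at h8
  refine le_trans (le_of_eq ?_) (h8.trans h4)
  ring

end Lower

/-! ### Alternating programs -/

/-- An alternating branching program with variables in `V`, which knows the variables in `M` for
free. A reading node `s` reads the variable `var s` and goes on with `next s a b`, where `b` is the
value of the variable and `a` the values of the variables in `M`; a guessing node `q`, which is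
existential or universal, goes on with one of the two nodes `guess q a b`. Nodes are reading nodes,
guessing nodes and the two decisions. -/
structure Program (V : Type) (M : Set V) where
  S : Type
  finS : Finite S
  Q : Type
  finQ : Finite Q
  univ : Q → Prop
  start : S ⊕ Q ⊕ Bool
  var : S → V
  next : S → (M → Bool) → Bool → S ⊕ Q ⊕ Bool
  guess : Q → (M → Bool) → Bool → S ⊕ Q ⊕ Bool

namespace Program

variable {V : Type} {M : Set V} (P : Program V M)

/-- The nodes and the decisions. -/
abbrev Node : Type := P.S ⊕ P.Q ⊕ Bool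

/-- The accepting nodes for the input `x`: the decision `true`, reading nodes which go on with an
accepting node, existential nodes one of whose two successors is accepting, and universal nodes both
of whose successors are accepting. -/
inductive Wins (x : V → Bool) : P.Node → Prop
  | yes : Wins x (Sum.inr (Sum.inr true))
  | read (s : P.S) : Wins x (P.next s (fun m => x m) (x (P.var s))) → Wins x (Sum.inl s)
  | some (q : P.Q) (b : Bool) : ¬ P.univ q → Wins x (P.guess q (fun m => x m) b) →
      Wins x (Sum.inr (Sum.inl q))
  | all (q : P.Q) : P.univ q → (∀ b, Wins x (P.guess q (fun m => x m) b)) →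
      Wins x (Sum.inr (Sum.inl q))

/-- The program accepts `x`. -/
def Accepts (x : V → Bool) : Prop := P.Wins x P.start

end Program

/-- An arbitrary Boolean function `F` of the decisions of `r` programs. -/
structure Combination (V : Type) (M : Set V) where
  r : ℕ
  P : Fin r → Program V M
  F : (Fin r → Prop) → Prop

namespace Combination

variable {V : Type} {M : Set V} (A : Combination V M)

/-- The total number of reading nodes. -/
noncomputable def reading : ℕ := ∑ k, Nat.card (A.P k).S

/-- The total number of guessing nodes. -/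
noncomputable def guessing : ℕ := ∑ k, Nat.card (A.P k).Q

/-- The combination accepts `x`. -/
def Accepts (x : V → Bool) : Prop := A.F fun k => (A.P k).Accepts x

/-- The vertices of the network of a combination. -/
abbrev W : Type := Σ k : Fin A.r, (A.P k).Node ⊕ ((A.P k).S × Bool) ⊕ ((A.P k).Q × Bool)

/-- The terminals: starts, ends, guessing nodes and their exits. -/
abbrev T : Type := Σ k : Fin A.r, Bool ⊕ (A.P k).Q ⊕ ((A.P k).Q × Bool)

/-- The vertices at the terminals. -/
def term : A.T → A.W
  | ⟨k, .inl false⟩ => ⟨k, .inl (A.P k).start⟩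
  | ⟨k, .inl true⟩ => ⟨k, .inl (.inr (.inr true))⟩
  | ⟨k, .inr (.inl q)⟩ => ⟨k, .inl (.inr (.inl q))⟩
  | ⟨k, .inr (.inr p)⟩ => ⟨k, .inr (.inr p)⟩

/-- The accepting terminals, computed from the connectivity of the terminals. -/
inductive TW (k : Fin A.r) (E : A.T → A.T → Prop) : A.T → Prop
  | yes (a : A.T) : E a ⟨k, .inl true⟩ → TW k E a
  | some (a : A.T) (q : (A.P k).Q) (b : Bool) : ¬ (A.P k).univ q → E a ⟨k, .inr (.inl q)⟩ →
      TW k E ⟨k, .inr (.inr (q, b))⟩ → TW k E a
  | all (a : A.T) (q : (A.P k).Q) : (A.P k).univ q → E a ⟨k, .inr (.inl q)⟩ →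
      (∀ b, TW k E ⟨k, .inr (.inr (q, b))⟩) → TW k E a

/-- The network of a combination. -/
def device : Device V M where
  W := A.W
  free a u v := (∃ k s b, u = ⟨k, .inr (.inl (s, b))⟩ ∧ v = ⟨k, .inl ((A.P k).next s a b)⟩) ∨
    ∃ k q b, u = ⟨k, .inr (.inr (q, b))⟩ ∧ v = ⟨k, .inl ((A.P k).guess q a b)⟩
  C := Σ k : Fin A.r, (A.P k).S × Bool
  fin := by
    have := fun k => (A.P k).finS
    infer_instance
  tail c := ⟨c.1, .inl (.inl c.2.1)⟩
  head c := ⟨c.1, .inr (.inl c.2)⟩
  var c := (A.P c.1).var c.2.1
  closed c _ b := b = c.2.2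
  T := A.T
  finT := by
    have := fun k => (A.P k).finQ
    infer_instance
  term := A.term
  out E := A.F fun k => A.TW k E ⟨k, .inl false⟩

variable {A}

/-- The program goes on with an accepting node. -/
def Good (x : V → Bool) : A.W → Prop
  | ⟨k, .inl v⟩ => (A.P k).Wins x v
  | ⟨k, .inr (.inl (s, b))⟩ => (A.P k).Wins x ((A.P k).next s (fun m => x m) b)
  | ⟨k, .inr (.inr (q, b))⟩ => (A.P k).Wins x ((A.P k).guess q (fun m => x m) b)

theorem good_edge {x : V → Bool} {u v : A.W} (h : A.device.Edge x u v) :
    Good x u ↔ Good x v := by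
  rcases h with (⟨k, s, b, rfl, rfl⟩ | ⟨k, q, b, rfl, rfl⟩) | ⟨⟨k, s, b⟩, hc, rfl, rfl⟩
  · exact Iff.rfl
  · exact Iff.rfl
  · change x ((A.P k).var s) = b at hc
    subst hc
    change (A.P k).Wins x (.inl s) ↔
      (A.P k).Wins x ((A.P k).next s (fun m => x m) (x ((A.P k).var s)))
    constructor
    · intro h
      cases h with
      | read s h => exact h
    · exact fun h => .read s h

theorem good_joined {x : V → Bool} {u v : A.W} (h : A.device.Joined x u v) :
    Good x u ↔ Good x v := by
  unfold Device.Joined at h
  induction h with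
  | refl => exact Iff.rfl
  | tail _ h ih =>
    rcases h with h | h
    · exact ih.trans (good_edge h)
    · exact ih.trans (good_edge h).symm

theorem tw_of_wins {x : V → Bool} (k : Fin A.r) {u : (A.P k).Node} (h : (A.P k).Wins x u) :
    ∀ a : A.T, A.device.Joined x (A.term a) ⟨k, .inl u⟩ →
      A.TW k (fun a b => A.device.Joined x (A.term a) (A.term b)) a := by
  have exit : ∀ q b, A.device.Joined x (A.term ⟨k, .inr (.inr (q, b))⟩)
      ⟨k, .inl ((A.P k).guess q (fun m => x m) b)⟩ := fun q b =>
    ReflTransGen.single (Or.inl (Or.inl (Or.inr ⟨k, q, b, rfl, rfl⟩)))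
  induction h with
  | yes => exact fun a ha => .yes a ha
  | read s _ ih =>
    intro a ha
    refine ih a ?_
    have e1 : A.device.Edge x ⟨k, .inl (.inl s)⟩ ⟨k, .inr (.inl (s, x ((A.P k).var s)))⟩ :=
      Or.inr ⟨⟨k, s, x ((A.P k).var s)⟩, rfl, rfl, rfl⟩
    have e2 : A.device.Edge x ⟨k, .inr (.inl (s, x ((A.P k).var s)))⟩
        ⟨k, .inl ((A.P k).next s (fun m => x m) (x ((A.P k).var s)))⟩ :=
      Or.inl (Or.inl ⟨k, s, _, rfl, rfl⟩)
    exact (ReflTransGen.tail ha (Or.inl e1)).tail (Or.inl e2)
  | some q b hq _ ih => exact fun a ha => .some a q b hq ha (ih _ (exit q b))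
  | all q hq _ ih => exact fun a ha => .all a q hq ha fun b => ih b _ (exit q b)

theorem good_of_tw {x : V → Bool} (k : Fin A.r) {a : A.T}
    (h : A.TW k (fun a b => A.device.Joined x (A.term a) (A.term b)) a) :
    Good x (A.term a) := by
  induction h with
  | yes a ha => exact (good_joined ha).mpr Program.Wins.yes
  | some a q b hq ha _ ih => exact (good_joined ha).mpr (Program.Wins.some q b hq ih)
  | all a q hq ha _ ih => exact (good_joined ha).mpr (Program.Wins.all q hq ih)

theorem device_accepts (x : V → Bool) : A.device.Accepts x ↔ A.Accepts x := by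
  have h2 : (fun k : Fin A.r =>
      A.TW k (fun a b => A.device.Joined x (A.term a) (A.term b)) ⟨k, .inl false⟩) =
      fun k => (A.P k).Accepts x :=
    funext fun k => propext ⟨fun h => good_of_tw k h, fun h => tw_of_wins k h _ .refl⟩
  unfold Device.Accepts Combination.Accepts
  change A.F (fun k : Fin A.r =>
      A.TW k (fun a b => A.device.Joined x (A.term a) (A.term b)) ⟨k, .inl false⟩) ↔ _
  rw [h2]

theorem device_terminals : A.device.terminals = 2 * A.r + 3 * A.guessing := by
  have := fun k => (A.P k).finQ
  unfold Device.terminals guessing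
  change Nat.card A.T = _
  rw [Nat.card_sigma]
  simp_rw [Nat.card_sum, Nat.card_prod]
  rw [Finset.sum_add_distrib, Finset.mul_sum]
  simp
  have h : ∀ k : Fin A.r, Nat.card (A.P k).Q + Nat.card (A.P k).Q * 2 =
      3 * Nat.card (A.P k).Q := fun k => by ring
  simp_rw [h]
  ring

theorem device_size : A.device.size = 2 * A.reading := by
  have := fun k => (A.P k).finS
  unfold Device.size reading
  change Nat.card (Σ k : Fin A.r, (A.P k).S × Bool) = _
  rw [Nat.card_sigma, Finset.mul_sum]
  simp_rw [Nat.card_prod]
  simp [mul_comm]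

end Combination

/-! ### A nondeterministic program for reachability -/

section Upper

variable {U : Type} {n : ℕ} [NeZero n] (e : U ≃ ZMod n)

open Classical in
/-- The program: at the guessing node `(u, v)` it stays at the vertex `u` and decides whether it
tries the edge `(u, v)`. -/
noncomputable def walk [Finite U] (s t : U) : Program (U × U) ∅ where
  S := U × U
  finS := inferInstance
  Q := U × U
  finQ := inferInstance
  univ _ := False
  start := .inr (.inl (s, s))
  var := id
  next p _ b := if b = true then
    (if p.2 = t then .inr (.inr true) else .inr (.inl (p.2, p.2))) else .inr (.inr false)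
  guess p _ b := if b = true then .inl p else .inr (.inl (p.1, e.symm (e p.2 + 1)))

/-- What holds at the accepting nodes. -/
def Val (x : U × U → Bool) (t : U) : (U × U) ⊕ (U × U) ⊕ Bool → Prop
  | .inl p => ReflTransGen (fun u v => x (u, v) = true) p.1 t
  | .inr (.inl p) => ReflTransGen (fun u v => x (u, v) = true) p.1 t
  | .inr (.inr b) => b = true

theorem walk_accepts [Finite U] {s t : U} (hst : s ≠ t) (x : U × U → Bool) :
    (walk e s t).Accepts x ↔ ReflTransGen (fun u v => x (u, v) = true) s t := by
  classical
  constructor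
  · intro h
    have key : ∀ w : (walk e s t).Node, (walk e s t).Wins x w → Val x t w := by
      intro w hw
      induction hw with
      | yes => rfl
      | read p _ ih =>
        change Val x t (if x p = true then (if p.2 = t then .inr (.inr true) else
            .inr (.inl (p.2, p.2))) else .inr (.inr false)) at ih
        change ReflTransGen (fun u v => x (u, v) = true) p.1 t
        by_cases hx : x p = true
        · rw [if_pos hx] at ih
          by_cases ht : p.2 = t
          · rw [← ht]
            exact .single hx
          · rw [if_neg ht] at ih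
            exact ReflTransGen.head (b := p.2) hx ih
        · rw [if_neg hx] at ih
          exact absurd ih (by simp [Val])
      | some p b _ _ ih =>
        cases b
        · exact ih
        · exact ih
      | all p hp _ _ => exact hp.elim
    exact key _ h
  · intro h
    have hgo : ∀ u v : U, (walk e s t).Wins x (.inl (u, v)) → ∀ w : U,
        (walk e s t).Wins x (.inr (.inl (u, w))) := by
      intro u v huv
      have h1 : ∀ k : ℕ, (walk e s t).Wins x (.inr (.inl (u, e.symm (e v - k)))) := by
        intro k
        induction k with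
        | zero =>
          rw [Nat.cast_zero, sub_zero, Equiv.symm_apply_apply]
          exact Program.Wins.some (P := walk e s t) (u, v) true id huv
        | succ k ih =>
          refine Program.Wins.some (P := walk e s t) (u, e.symm (e v - (k + 1 : ℕ))) false id ?_
          change (walk e s t).Wins x
            (.inr (.inl (u, e.symm (e (e.symm (e v - (k + 1 : ℕ))) + 1))))
          rw [Equiv.apply_symm_apply, Nat.cast_succ]
          rw [show e v - ((k : ZMod n) + 1) + 1 = e v - k by ring]
          exact ih
      intro w
      have h2 := h1 (e v - e w).val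
      rw [ZMod.natCast_zmod_val, sub_sub_cancel, Equiv.symm_apply_apply] at h2
      exact h2
    have key : ∀ u : U, ReflTransGen (fun u v => x (u, v) = true) u t → u ≠ t →
        ∀ w, (walk e s t).Wins x (.inr (.inl (u, w))) := by
      intro u hu
      induction hu using ReflTransGen.head_induction_on with
      | refl => exact fun h => absurd rfl h
      | @head u v hx _ ih =>
        intro _
        refine hgo u v (Program.Wins.read (P := walk e s t) (u, v) ?_)
        change (walk e s t).Wins x (if x (u, v) = true then (if v = t then .inr (.inr true) else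
            .inr (.inl (v, v))) else .inr (.inr false))
        rw [if_pos hx]
        by_cases hv : v = t
        · rw [if_pos hv]
          exact Program.Wins.yes
        · rw [if_neg hv]
          exact ih hv v
    exact key s h hst s

end Upper

/-- The vertices as a disjoint union. -/
def vtxEquiv (g : ℕ) : Vtx g ≃ Bool ⊕ (Bool × Bool × ZMod g) where
  toFun
    | .s => .inl false
    | .t => .inl true
    | .a i => .inr (false, false, i)
    | .b i => .inr (false, true, i)
    | .c i => .inr (true, false, i)
    | .d i => .inr (true, true, i)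
  invFun
    | .inl false => .s
    | .inl true => .t
    | .inr (false, false, i) => .a i
    | .inr (false, true, i) => .b i
    | .inr (true, false, i) => .c i
    | .inr (true, true, i) => .d i
  left_inv v := by cases v <;> rfl
  right_inv v := by rcases v with (_ | _) | ⟨_ | _, _ | _, i⟩ <;> rfl

instance (g : ℕ) [NeZero g] : Finite (Vtx g) := Finite.of_equiv _ (vtxEquiv g).symm

theorem card_vtx (g : ℕ) [NeZero g] : Nat.card (Vtx g) = 4 * g + 2 := by
  rw [Nat.card_congr (vtxEquiv g), Nat.card_sum, Nat.card_prod, Nat.card_prod, Nat.card_zmod]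
  simp
  ring

theorem upper (g : ℕ) [NeZero g] : ∃ P : Program (Pair g) ∅, (∀ q, ¬ P.univ q) ∧
    Nat.card P.S = (4 * g + 2) ^ 2 ∧ Nat.card P.Q = (4 * g + 2) ^ 2 ∧
      ∀ x, P.Accepts x ↔ Reach x := by
  have h1 : Nat.card (Vtx g) = Nat.card (ZMod (4 * g + 2)) := by
    rw [card_vtx, Nat.card_zmod]
  obtain ⟨e⟩ : Nonempty (Vtx g ≃ ZMod (4 * g + 2)) := Finite.card_eq.mp h1
  have h2 : Nat.card (Pair g) = (4 * g + 2) ^ 2 := by
    rw [Nat.card_prod, card_vtx, sq]
  exact ⟨walk e Vtx.s Vtx.t, fun _ => id, h2, h2, fun x => walk_accepts e (by simp) x⟩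

/-! ### A network for the hard family -/

section Family

variable {g : ℕ}

theorem inner_not_outer (k j : ZMod g) : (Vtx.b k, Vtx.c j) ∈ (Outer g)ᶜ := by
  rintro ⟨i, l, h | h⟩
  · simp at h
  · simp at h

/-- An undirected network with two terminals for the hard family. -/
def famNet (g : ℕ) [NeZero g] : Device (Pair g) (Outer g)ᶜ where
  W := Bool ⊕ (ZMod g × ZMod g)
  free _ _ _ := False
  C := (ZMod g × ZMod g) ⊕ (ZMod g × ZMod g × ZMod g)
  fin := inferInstance
  tail
    | .inl _ => .inl false
    | .inr (k, m, _) => .inr (k, m)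
  head
    | .inl (i, m) => .inr (i + m, m)
    | .inr _ => .inl true
  var
    | .inl (i, m) => (.a i, .b (i + m))
    | .inr (_, m, j) => (.c j, .d (j + m))
  closed
    | .inl _, _, b => b = true
    | .inr (k, _, j), x, b => b = true ∧ x ⟨(.b k, .c j), inner_not_outer k j⟩ = true
  T := Bool
  finT := inferInstance
  term := .inl
  out E := E false true

/-- The vertices connected with the source. -/
def FGood (m i j : ZMod g) (R : ZMod g → ZMod g → Bool) : Bool ⊕ (ZMod g × ZMod g) → Prop
  | .inl false => True
  | .inl true => R (i + m) j = true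
  | .inr (k, m') => (k = i + m ∧ m' = m) ∨ R (i + m) j = true

theorem fam_right [NeZero g] (m i j : ZMod g) (R : ZMod g → ZMod g → Bool) :
    (famNet g).Accepts (hard m i j R) ↔ Reach (hard m i j R) := by
  rw [reach_iff]
  change (famNet g).Joined (hard m i j R) (.inl false) (.inl true) ↔ _
  constructor
  · intro h
    have key : ∀ w : Bool ⊕ (ZMod g × ZMod g),
        (famNet g).Joined (hard m i j R) (.inl false) w → FGood m i j R w := by
      intro w hw
      unfold Device.Joined at hw
      induction hw with
      | refl => trivial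
      | @tail u v _ hs ih =>
        rcases hs with (hs | ⟨c, hc, hu, hv⟩) | (hs | ⟨c, hc, hv, hu⟩)
        · exact hs.elim
        · rcases c with ⟨i', m'⟩ | ⟨k, m', j'⟩
          · have hc' : decide (i' = i ∧ i' + m' = i + m) = true := hc
            rw [decide_eq_true_iff] at hc'
            obtain ⟨rfl, h2⟩ := hc'
            obtain rfl := add_left_cancel h2
            rw [← hv]
            exact Or.inl ⟨rfl, rfl⟩
          · have hc' : decide (j' = j ∧ j' + m' = j + m) = true ∧ R k j' = true := hc
            rw [decide_eq_true_iff] at hc'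
            obtain ⟨⟨rfl, h2⟩, h3⟩ := hc'
            obtain rfl := add_left_cancel h2
            rw [← hu] at ih
            rw [← hv]
            rcases ih with ⟨rfl, -⟩ | ih
            · exact h3
            · exact ih
        · exact hs.elim
        · rcases c with ⟨i', m'⟩ | ⟨k, m', j'⟩
          · rw [← hv]
            trivial
          · rw [← hu] at ih
            rw [← hv]
            exact Or.inr ih
    exact key _ h
  · intro h
    have e1 : (famNet g).Edge (hard m i j R) (.inl false) (.inr (i + m, m)) := by
      refine Or.inr ⟨.inl (i, m), ?_, rfl, rfl⟩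
      change decide (i = i ∧ i + m = i + m) = true
      simp
    have e2 : (famNet g).Edge (hard m i j R) (.inr (i + m, m)) (.inl true) := by
      refine Or.inr ⟨.inr (i + m, m, j), ?_, rfl, rfl⟩
      change decide (j = j ∧ j + m = j + m) = true ∧ R (i + m) j = true
      exact ⟨by simp, h⟩
    have e3 : (famNet g).Joined (hard m i j R) (.inl false) (.inr (i + m, m)) :=
      ReflTransGen.single (Or.inl e1)
    exact ReflTransGen.tail e3 (Or.inl e2)

theorem fam_upper (g : ℕ) [NeZero g] : ∃ D : Device (Pair g) (Outer g)ᶜ,
    D.terminals = 2 ∧ D.size = g ^ 3 + g ^ 2 ∧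
      ∀ p : Par g, D.Accepts (hardAt p) ↔ Reach (hardAt p) := by
  refine ⟨famNet g, ?_, ?_, fun p => fam_right _ _ _ _⟩
  · change Nat.card Bool = 2
    simp
  · change Nat.card ((ZMod g × ZMod g) ⊕ (ZMod g × ZMod g × ZMod g)) = _
    rw [Nat.card_sum, Nat.card_prod, Nat.card_prod, Nat.card_prod, Nat.card_zmod]
    ring

end Family

/-! ### The theorem -/

theorem lower_combination {g : ℕ} [NeZero g] (A : Combination (Pair g) (Outer g)ᶜ) {δ : ℝ}
    (hδ : 0 < δ) (h : (1 / 2 + δ) * Nat.card (Par g) ≤
      Nat.card {p : Par g // A.Accepts (hardAt p) ↔ Reach (hardAt p)}) :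
    2 * δ ^ 2 * g ^ 3 ≤ (g * (2 * A.r + 3 * A.guessing) + 8 * A.reading) *
      Real.log (2 * A.r + 3 * A.guessing + 4 * A.reading) := by
  have h1 : (fun p : Par g => (A.Accepts (hardAt p) ↔ Reach (hardAt p))) =
      fun p : Par g => A.device.RightAt (hardAt p) := by
    funext p
    unfold Device.RightAt
    rw [Combination.device_accepts]
  have h2 : Nat.card {p : Par g // A.Accepts (hardAt p) ↔ Reach (hardAt p)} =
      Nat.card {p : Par g // A.device.RightAt (hardAt p)} :=
    congrArg (fun q : Par g → Prop => Nat.card {p : Par g // q p}) h1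
  rw [h2] at h
  have h3 := lower A.device hδ h
  rw [Combination.device_terminals, Combination.device_size] at h3
  push_cast at h3
  refine h3.trans (le_of_eq ?_)
  ring_nf

open Classical in
/-- Yao's averaging argument. -/
theorem average {g : ℕ} [NeZero g] {O : Type} [Fintype O] (w : O → ℝ) (hw : ∀ o, 0 ≤ w o)
    (hw1 : ∑ o, w o = 1) (right : O → Par g → Prop) (δ : ℝ)
    (h : ∀ p, 1 / 2 + δ ≤ ∑ o, if right o p then w o else 0) :
    ∃ o, (1 / 2 + δ) * Nat.card (Par g) ≤ Nat.card {p : Par g // right o p} := by
  by_contra hcon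
  push Not at hcon
  have h1 : (1 / 2 + δ) * Nat.card (Par g) ≤ ∑ o, w o * Nat.card {p : Par g // right o p} := by
    calc (1 / 2 + δ) * Nat.card (Par g) = ∑ _p : Par g, (1 / 2 + δ) := by
          rw [Finset.sum_const, Finset.card_univ, nsmul_eq_mul, Nat.card_eq_fintype_card]
          ring
      _ ≤ ∑ p : Par g, ∑ o, if right o p then w o else 0 := Finset.sum_le_sum fun p _ => h p
      _ = ∑ o, ∑ p : Par g, if right o p then w o else 0 := Finset.sum_comm
      _ = ∑ o, w o * Nat.card {p : Par g // right o p} := by
          refine Finset.sum_congr rfl fun o _ => ?_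
          rw [← Finset.sum_filter, Finset.sum_const, nsmul_eq_mul, Nat.card_eq_fintype_card,
            Fintype.card_subtype]
          ring
  have h2 : ∃ o, 0 < w o := by
    by_contra hno
    push Not at hno
    have : ∑ o, w o ≤ 0 := Finset.sum_nonpos fun o _ => hno o
    linarith
  obtain ⟨o, ho⟩ := h2
  have h3 : ∑ o, w o * Nat.card {p : Par g // right o p} <
      ∑ o, w o * ((1 / 2 + δ) * Nat.card (Par g)) :=
    Finset.sum_lt_sum (fun o _ => mul_le_mul_of_nonneg_left (hcon o).le (hw o))
      ⟨o, Finset.mem_univ o, mul_lt_mul_of_pos_left (hcon o) ho⟩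
  rw [← Finset.sum_mul, hw1, one_mul] at h3
  linarith

open Classical in
/-- **Theorem.** Let `g ≥ 1` and `n = 4 g + 2`.

1. There are `n` vertices.
2. Reachability has a nondeterministic program with `n ^ 2` reading and `n ^ 2` guessing nodes.
3. If a Boolean function of the decisions of `r` alternating programs, which have `s` reading and `q`
   guessing nodes together, is right for a fraction `1 / 2 + δ` of the hard family, then
   `2 δ² g ^ 3 ≤ (g (2 r + 3 q) + 8 s) log (2 r + 3 q + 4 s)`.
4. For every random combination of programs which is right with probability `1 / 2 + δ` for every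
   directed graph, one of the combinations satisfies this inequality.
5. If an undirected network with `S` contacts and `T` terminals and an arbitrary output function is
   right for a fraction `1 / 2 + δ` of the hard family, then `2 δ² g ^ 3 ≤ (g T + 4 S) log (T + 2 S)`.
6. There is such a network with `T = 2` and `S = g ^ 3 + g ^ 2` which is right for the whole family. -/
theorem result (g : ℕ) [NeZero g] :
    Nat.card (Vtx g) = 4 * g + 2 ∧
    (∃ P : Program (Pair g) ∅, (∀ q, ¬ P.univ q) ∧
      Nat.card P.S = (4 * g + 2) ^ 2 ∧ Nat.card P.Q = (4 * g + 2) ^ 2 ∧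
      ∀ x, P.Accepts x ↔ Reach x) ∧
    (∀ (A : Combination (Pair g) (Outer g)ᶜ) (δ : ℝ), 0 < δ →
      (1 / 2 + δ) * Nat.card (Par g) ≤
        Nat.card {p : Par g // A.Accepts (hardAt p) ↔ Reach (hardAt p)} →
      2 * δ ^ 2 * g ^ 3 ≤ (g * (2 * A.r + 3 * A.guessing) + 8 * A.reading) *
        Real.log (2 * A.r + 3 * A.guessing + 4 * A.reading)) ∧
    (∀ (O : Type) [Fintype O] (w : O → ℝ) (A : O → Combination (Pair g) (Outer g)ᶜ) (δ : ℝ),
      0 < δ → (∀ o, 0 ≤ w o) → ∑ o, w o = 1 →
      (∀ x : Pair g → Bool, 1 / 2 + δ ≤ ∑ o, if ((A o).Accepts x ↔ Reach x) then w o else 0) →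
      ∃ o, 2 * δ ^ 2 * g ^ 3 ≤ (g * (2 * (A o).r + 3 * (A o).guessing) + 8 * (A o).reading) *
        Real.log (2 * (A o).r + 3 * (A o).guessing + 4 * (A o).reading)) ∧
    (∀ (D : Device (Pair g) (Outer g)ᶜ) (δ : ℝ), 0 < δ →
      (1 / 2 + δ) * Nat.card (Par g) ≤
        Nat.card {p : Par g // D.Accepts (hardAt p) ↔ Reach (hardAt p)} →
      2 * δ ^ 2 * g ^ 3 ≤ (g * D.terminals + 4 * D.size) *
        Real.log (D.terminals + 2 * D.size)) ∧
    (∃ D : Device (Pair g) (Outer g)ᶜ, D.terminals = 2 ∧ D.size = g ^ 3 + g ^ 2 ∧
      ∀ p : Par g, D.Accepts (hardAt p) ↔ Reach (hardAt p)) := by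
  refine ⟨card_vtx g, upper g, fun A δ hδ h => lower_combination A hδ h, ?_,
    fun D δ hδ h => lower D hδ h, fam_upper g⟩
  intro O _ w A δ hδ hw hw1 h
  obtain ⟨o, ho⟩ := average w hw hw1 (fun o p => ((A o).Accepts (hardAt p) ↔ Reach (hardAt p))) δ
    (fun p => by convert h (hardAt p))
  exact ⟨o, lower_combination (A o) hδ ho⟩

end Pool.Agent.Results.MP_768539_lc.FewGuesses
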