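import Mathlib

/-!
# Reachability in networks of contacts: directed against undirected

A linearly bounded automaton accepts a word if and only if a vertex can be reached from another one
in its configuration graph. Whether determinism costs more here is the LBA problem.

Networks of contacts (edges labelled by literals) and free edges are the non-uniform version of
logarithmic space: the directed networks of polynomial size compute the languages of `NL/poly`, the
undirected networks of polynomial size (and the deterministic branching programs of polynomial size)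
those of `L/poly`. Reachability in directed graphs, the complete problem of `NL`, with its `n ^ 2`
variables has a directed network in which every variable labels exactly one contact, and no free
edge. We show that

* every undirected network for it has at least `n ^ 3 / (256 log n)` contacts, however many free
  edges and vertices it has;
* every deterministic branching program for it has at least `n ^ 3 / (512 log n)` nodes.

With `N = n ^ 2` the number of variables: directed networks have size `N`, undirected networks and
deterministic branching programs have size at least `N ^ (3 / 2) / (512 log N)`.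

The lower bound is Nečiporuk's method with blocks of `√N / 2` variables: the subfunctions of the
reachability problem on a block of disjoint edges `p_i → q_i` know the whole (arbitrary) relation
between the heads and the tails of the block, whereas the rest of an undirected network only knows
an equivalence relation on the ends of the contacts of the block.
-/

set_option autoImplicit false

namespace Pool.Agent.Results.MP_768539_lc.ReachabilityNetworks

/-! ### The models -/

/-- A network of contacts with variables in `V`: vertices `W` with a source and a sink, arbitrary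
free edges, and finitely many contacts; the contact `c` is an edge from `tail c` to `head c` which is
present for the input `x` if and only if `x (var c) = val c`. -/
structure Network (V : Type) where
  W : Type
  source : W
  sink : W
  free : W → W → Prop
  C : Type
  fin : Finite C
  tail : C → W
  head : C → W
  var : C → V
  val : C → Bool

namespace Network

variable {V : Type} (N : Network V)

/-- The number of contacts. -/
noncomputable def size : ℕ := Nat.card N.C

/-- The number of contacts labelled by the variable `v`. -/
noncomputable def sizeAt (v : V) : ℕ := Nat.card {c : N.C // N.var c = v}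

/-- `u → v` is an edge for the input `x`. -/
def Edge (x : V → Bool) (u v : N.W) : Prop :=
  N.free u v ∨ ∃ c, x (N.var c) = N.val c ∧ N.tail c = u ∧ N.head c = v

/-- The network computes `f` by directed paths from the source to the sink. -/
def ComputesDirected (f : (V → Bool) → Bool) : Prop :=
  ∀ x, f x = true ↔ Relation.ReflTransGen (N.Edge x) N.source N.sink

/-- The network computes `f` by undirected paths: every edge may be used in both directions. -/
def ComputesUndirected (f : (V → Bool) → Bool) : Prop :=
  ∀ x, f x = true ↔
    Relation.ReflTransGen (fun u v => N.Edge x u v ∨ N.Edge x v u) N.source N.sink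

end Network

/-- A deterministic branching program with variables in `V`: the node `s` reads the variable `var s`;
if its value is `a` the program goes on with `next s a`, which is another node or a decision. -/
structure Program (V : Type) where
  S : Type
  fin : Finite S
  start : S
  var : S → V
  next : S → Bool → S ⊕ Bool

namespace Program

variable {V : Type} (P : Program V)

/-- The number of nodes. -/
noncomputable def size : ℕ := Nat.card P.S

/-- One step for the input `x`. -/
def Step (x : V → Bool) (u v : P.S ⊕ Bool) : Prop :=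
  ∃ s, u = Sum.inl s ∧ v = P.next s (x (P.var s))

/-- The program computes `f`: for `f x = 1` and no other `x` it arrives at the decision `true`. -/
def Computes (f : (V → Bool) → Bool) : Prop :=
  ∀ x, f x = true ↔ Relation.ReflTransGen (P.Step x) (Sum.inl P.start) (Sum.inr true)

end Program

/-! ### Reachability -/

open Classical in
/-- Reachability of `t` from `s` in the directed graph with the edges `u → v` for `x (u, v) = 1`. -/
noncomputable def stcon {n : ℕ} (s t : Fin n) (x : Fin n × Fin n → Bool) : Bool :=
  decide (Relation.ReflTransGen (fun u v => x (u, v) = true) s t)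

open Classical in
/-- Reachability of `t` from `s` when the edges may be used in both directions. -/
noncomputable def ustcon {n : ℕ} (s t : Fin n) (x : Fin n × Fin n → Bool) : Bool :=
  decide (Relation.ReflTransGen (fun u v => x (u, v) = true ∨ x (v, u) = true) s t)

/-- The network of the graph itself: one contact for every variable, no free edges. -/
def graphNet {n : ℕ} (s t : Fin n) : Network (Fin n × Fin n) where
  W := Fin n
  source := s
  sink := t
  free _ _ := False
  C := Fin n × Fin n
  fin := inferInstance
  tail := Prod.fst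
  head := Prod.snd
  var := id
  val _ := true

theorem graphNet_edge {n : ℕ} (s t : Fin n) (x : Fin n × Fin n → Bool) (u v : Fin n) :
    (graphNet s t).Edge x u v ↔ x (u, v) = true := by
  constructor
  · rintro (h | ⟨c, hc, rfl, rfl⟩)
    · exact h.elim
    · exact hc
  · intro h
    exact Or.inr ⟨(u, v), h, rfl, rfl⟩

theorem graphNet_directed {n : ℕ} (s t : Fin n) :
    (graphNet s t).ComputesDirected (stcon s t) := by
  classical
  intro x
  have h : (graphNet s t).Edge x = fun u v => x (u, v) = true := by
    funext u v
    exact propext (graphNet_edge s t x u v)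
  unfold stcon
  rw [decide_eq_true_iff, h]
  rfl

theorem graphNet_undirected {n : ℕ} (s t : Fin n) :
    (graphNet s t).ComputesUndirected (ustcon s t) := by
  classical
  intro x
  have h : (fun u v : Fin n => (graphNet s t).Edge x u v ∨ (graphNet s t).Edge x v u) =
      fun u v => x (u, v) = true ∨ x (v, u) = true := by
    funext u v
    rw [graphNet_edge, graphNet_edge]
  unfold ustcon
  rw [decide_eq_true_iff]
  exact Iff.of_eq (congrArg (fun r => Relation.ReflTransGen r s t) h.symm)

theorem graphNet_sizeAt {n : ℕ} (s t : Fin n) (v : Fin n × Fin n) :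
    (graphNet s t).sizeAt v = 1 := by
  have : (graphNet s t).sizeAt v = Nat.card {c : Fin n × Fin n // c = v} := rfl
  rw [this]
  simp

theorem graphNet_size {n : ℕ} (s t : Fin n) : (graphNet s t).size = n ^ 2 := by
  have : (graphNet s t).size = Nat.card (Fin n × Fin n) := rfl
  rw [this]
  simp [sq]

/-! ### Nečiporuk's bound for undirected networks -/

section Neciporuk

open Classical in
/-- The input with the values `τ` in the block `B` and the values `ρ` outside. -/
noncomputable def glue {V : Type} (B : V → Prop) (ρ τ : V → Bool) (v : V) : Bool :=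
  if B v then τ v else ρ v

variable {V : Type} (N : Network V) (B : V → Prop)

/-- The edges outside the block for the values `ρ`. -/
def OEdge (ρ : V → Bool) (u v : N.W) : Prop :=
  N.free u v ∨ ∃ c, ¬ B (N.var c) ∧ ρ (N.var c) = N.val c ∧ N.tail c = u ∧ N.head c = v

/-- Connectivity outside the block. -/
def OC (ρ : V → Bool) (u v : N.W) : Prop :=
  Relation.ReflTransGen (fun u v => OEdge N B ρ u v ∨ OEdge N B ρ v u) u v

theorem OC_symm {ρ : V → Bool} {u v : N.W} (h : OC N B ρ u v) : OC N B ρ v u := by
  unfold OC at h ⊢
  induction h with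
  | refl => exact .refl
  | tail _ h ih => exact ih.head h.symm

/-- The source, the sink and the ends of the contacts of the block. -/
abbrev Term : Type := Bool ⊕ ({c : N.C // B (N.var c)} × Bool)

/-- The vertices at the terminals. -/
def pos : Term N B → N.W
  | .inl false => N.source
  | .inl true => N.sink
  | .inr (c, false) => N.tail c.1
  | .inr (c, true) => N.head c.1

/-- What the outside knows: an equivalence relation on the terminals. -/
def osetoid (ρ : V → Bool) : Setoid (Term N B) where
  r i j := OC N B ρ (pos N B i) (pos N B j)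
  iseqv := ⟨fun _ => Relation.ReflTransGen.refl, fun h => OC_symm N B h, fun h h' => h.trans h'⟩

/-- A step on the terminals. -/
def TStep (R : Setoid (Term N B)) (τ : V → Bool) (i j : Term N B) : Prop :=
  R.r i j ∨ ∃ c : {c : N.C // B (N.var c)}, τ (N.var c.1) = N.val c.1 ∧
    ((i = .inr (c, false) ∧ j = .inr (c, true)) ∨ (i = .inr (c, true) ∧ j = .inr (c, false)))

theorem edge_of_oedge {ρ τ : V → Bool} {u v : N.W} (h : OEdge N B ρ u v) :
    N.Edge (glue B ρ τ) u v := by
  rcases h with h | ⟨c, hB, hc, h1, h2⟩
  · exact Or.inl h
  · refine Or.inr ⟨c, ?_, h1, h2⟩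
    unfold glue
    rw [if_neg hB]
    exact hc

theorem path_iff (ρ τ : V → Bool) :
    Relation.ReflTransGen
      (fun u v => N.Edge (glue B ρ τ) u v ∨ N.Edge (glue B ρ τ) v u) N.source N.sink ↔
    Relation.ReflTransGen (TStep N B (osetoid N B ρ) τ) (.inl false) (.inl true) := by
  constructor
  · intro h
    have key : ∀ w, Relation.ReflTransGen
        (fun u v => N.Edge (glue B ρ τ) u v ∨ N.Edge (glue B ρ τ) v u) N.source w →
        ∃ i, Relation.ReflTransGen (TStep N B (osetoid N B ρ) τ) (.inl false) i ∧
          OC N B ρ (pos N B i) w := by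
      intro w hw
      induction hw with
      | refl => exact ⟨.inl false, .refl, .refl⟩
      | @tail u v _ h ih =>
        obtain ⟨i, hi, hiu⟩ := ih
        rcases h with (h | ⟨c, hc, rfl, rfl⟩) | (h | ⟨c, hc, rfl, rfl⟩)
        · exact ⟨i, hi, hiu.tail (Or.inl (Or.inl h))⟩
        · by_cases hB : B (N.var c)
          · refine ⟨.inr (⟨c, hB⟩, true), ?_, .refl⟩
            refine (hi.tail (Or.inl hiu :
              TStep N B (osetoid N B ρ) τ i (.inr (⟨c, hB⟩, false)))).tail (Or.inr ⟨⟨c, hB⟩, ?_,
                Or.inl ⟨rfl, rfl⟩⟩)
            unfold glue at hc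
            rw [if_pos hB] at hc
            exact hc
          · refine ⟨i, hi, hiu.tail (Or.inl (Or.inr ⟨c, hB, ?_, rfl, rfl⟩))⟩
            unfold glue at hc
            rw [if_neg hB] at hc
            exact hc
        · exact ⟨i, hi, hiu.tail (Or.inr (Or.inl h))⟩
        · by_cases hB : B (N.var c)
          · refine ⟨.inr (⟨c, hB⟩, false), ?_, .refl⟩
            refine (hi.tail (Or.inl hiu :
              TStep N B (osetoid N B ρ) τ i (.inr (⟨c, hB⟩, true)))).tail (Or.inr ⟨⟨c, hB⟩, ?_,
                Or.inr ⟨rfl, rfl⟩⟩)
            unfold glue at hc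
            rw [if_pos hB] at hc
            exact hc
          · refine ⟨i, hi, hiu.tail (Or.inr (Or.inr ⟨c, hB, ?_, rfl, rfl⟩))⟩
            unfold glue at hc
            rw [if_neg hB] at hc
            exact hc
    obtain ⟨i, hi, his⟩ := key _ h
    exact hi.tail (Or.inl his)
  · intro h
    have key : ∀ i, Relation.ReflTransGen (TStep N B (osetoid N B ρ) τ) (.inl false) i →
        Relation.ReflTransGen
          (fun u v => N.Edge (glue B ρ τ) u v ∨ N.Edge (glue B ρ τ) v u) N.source (pos N B i) := by
      intro i hi
      induction hi with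
      | refl => exact .refl
      | @tail i j _ h ih =>
        rcases h with h | ⟨c, hc, h⟩
        · refine ih.trans ?_
          have h' : OC N B ρ (pos N B i) (pos N B j) := h
          refine Relation.ReflTransGen.mono ?_ _ _ h'
          rintro u v (h | h)
          · exact Or.inl (edge_of_oedge N B h)
          · exact Or.inr (edge_of_oedge N B h)
        · have hg : glue B ρ τ (N.var c.1) = N.val c.1 := by
            unfold glue
            rw [if_pos c.2]
            exact hc
          rcases h with ⟨rfl, rfl⟩ | ⟨rfl, rfl⟩
          · exact ih.tail (Or.inl (Or.inr ⟨c.1, hg, rfl, rfl⟩))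
          · exact ih.tail (Or.inr (Or.inr ⟨c.1, hg, rfl, rfl⟩))
    exact key _ h

/-- A choice of representatives, which determines the equivalence relation. -/
noncomputable def rep {I : Type} (R : Setoid I) (i : I) : I := (Quotient.mk R i).out

theorem rep_injective (I : Type) : Function.Injective (rep : Setoid I → I → I) := by
  intro R R' h
  have key : ∀ R : Setoid I, ∀ i j, R.r i j ↔ rep R i = rep R j := by
    intro R i j
    constructor
    · intro hij
      unfold rep
      rw [Quotient.sound hij]
    · intro hij
      have : Quotient.mk R i = Quotient.mk R j := by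
        unfold rep at hij
        exact Quotient.out_injective hij
      exact Quotient.exact this
  refine Setoid.ext fun i j => ?_
  exact ((key R i j).trans (by rw [h])).trans (key R' i j).symm

/-- Nečiporuk's bound. -/
theorem neciporuk {K : Type} (ρ : K → V → Bool) {f : (V → Bool) → Bool}
    (hf : N.ComputesUndirected f)
    (hρ : ∀ k k', (∀ τ, f (glue B (ρ k) τ) = f (glue B (ρ k') τ)) → k = k') :
    Nat.card K ≤ (2 * Nat.card {c : N.C // B (N.var c)} + 2) ^
      (2 * Nat.card {c : N.C // B (N.var c)} + 2) := by
  have := N.fin
  have hcard : Nat.card (Term N B) = 2 * Nat.card {c : N.C // B (N.var c)} + 2 := by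
    rw [Nat.card_sum, Nat.card_prod]
    simp
    ring
  have hinj : Function.Injective (fun k => rep (osetoid N B (ρ k))) := by
    intro k k' h
    have h' : osetoid N B (ρ k) = osetoid N B (ρ k') := rep_injective _ h
    refine hρ k k' fun τ => ?_
    rw [Bool.eq_iff_iff, hf, hf, path_iff, path_iff, h']
  have h1 := Nat.card_le_card_of_injective _ hinj
  rwa [Nat.card_fun, hcard] at h1

end Neciporuk

/-! ### The subfunctions of reachability -/

section Sub

variable {g n : ℕ}

/-- The vertices used: `s = inl false`, `t = inl true`, and for each of two sides `β` the vertices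
`p_i = inr (false, β, i)` and `q_i = inr (true, β, i)`. -/
abbrev Nd (g : ℕ) : Type := Bool ⊕ (Bool × Bool × ZMod g)

/-- The edges outside the block `c`: from `s` to the `p_i` of the side `false`, from the `q_k` of
this side to the `p_j` of the side `true` as the relation `R` says, and from the `q_k` of the side
`true` to `t`. -/
def outer (c : ZMod g) (R : ZMod g → ZMod g → Bool) : Nd g → Nd g → Prop
  | .inl false, .inr (false, false, _) => True
  | .inr (true, false, k), .inr (false, true, j) => R (k - c) j = true
  | .inr (true, true, _), .inl true => True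
  | _, _ => False

/-- The edges `p_i → q_{i + c}` of the block `c`. -/
def block (c : ZMod g) : Nd g → Nd g → Prop
  | .inr (false, β, i), .inr (true, β', k) => β = β' ∧ k = i + c
  | _, _ => False

/-- Two edges of the block: the one from `p_i` on the side `false`, the one from `p_j` on the side
`true`. -/
def inner (c i j : ZMod g) (a b : Nd g) : Prop :=
  block c a b ∧ (a = .inr (false, false, i) ∨ a = .inr (false, true, j))

theorem outer_not_block {c : ZMod g} {R : ZMod g → ZMod g → Bool} {a b : Nd g}
    (h : outer c R a b) : ¬ block c a b := by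
  rcases a with (_ | _) | ⟨_ | _, _ | _, k⟩ <;> rcases b with (_ | _) | ⟨_ | _, _ | _, k'⟩ <;>
    first
      | exact h.elim
      | exact fun h' => h'.elim

/-- What is known at a vertex. -/
def Good (c i j : ZMod g) (R : ZMod g → ZMod g → Bool) : Nd g → Prop
  | .inl false => True
  | .inl true => R i j = true
  | .inr (false, false, _) => True
  | .inr (true, false, k) => k = i + c
  | .inr (false, true, j') => R i j' = true
  | .inr (true, true, _) => R i j = true

theorem good_step {c i j : ZMod g} {R : ZMod g → ZMod g → Bool} {a b : Nd g}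
    (ha : Good c i j R a) (h : outer c R a b ∨ inner c i j a b) : Good c i j R b := by
  rcases a with (_ | _) | ⟨_ | _, _ | _, k⟩ <;> rcases b with (_ | _) | ⟨_ | _, _ | _, k'⟩ <;>
    simp_all [outer, inner, block, Good]

theorem reach_iff (c i j : ZMod g) (R : ZMod g → ZMod g → Bool) :
    Relation.ReflTransGen (fun a b => outer c R a b ∨ inner c i j a b) (.inl false) (.inl true) ↔
      R i j = true := by
  constructor
  · intro h
    have key : ∀ b : Nd g, Relation.ReflTransGen (fun a b => outer c R a b ∨ inner c i j a b)
        (.inl false) b → Good c i j R b := by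
      intro b hb
      induction hb with
      | refl => trivial
      | tail _ h ih => exact good_step ih h
    exact key _ h
  · intro h
    have h1 : outer c R (.inl false) (.inr (false, false, i)) ∨
        inner c i j (.inl false) (.inr (false, false, i)) := Or.inl trivial
    have h2 : outer c R (.inr (false, false, i)) (.inr (true, false, i + c)) ∨
        inner c i j (.inr (false, false, i)) (.inr (true, false, i + c)) :=
      Or.inr ⟨⟨rfl, rfl⟩, Or.inl rfl⟩
    have h3 : outer c R (.inr (true, false, i + c)) (.inr (false, true, j)) ∨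
        inner c i j (.inr (true, false, i + c)) (.inr (false, true, j)) := by
      left
      change R (i + c - c) j = true
      rw [add_sub_cancel_right]
      exact h
    have h4 : outer c R (.inr (false, true, j)) (.inr (true, true, j + c)) ∨
        inner c i j (.inr (false, true, j)) (.inr (true, true, j + c)) :=
      Or.inr ⟨⟨rfl, rfl⟩, Or.inr rfl⟩
    have h5 : outer c R (.inr (true, true, j + c)) (.inl true) ∨
        inner c i j (.inr (true, true, j + c)) (.inl true) := Or.inl trivial
    exact .head h1 (.head h2 (.head h3 (.head h4 (.single h5))))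

open Classical in
/-- The relation `Y` as a set of edges of a graph on `n` vertices. -/
noncomputable def ext (ι : Nd g → Fin n) (Y : Nd g → Nd g → Prop) (e : Fin n × Fin n) : Bool :=
  decide (∃ a b, ι a = e.1 ∧ ι b = e.2 ∧ Y a b)

/-- The variables of the block `c`. -/
def blk (ι : Nd g → Fin n) (c : ZMod g) (e : Fin n × Fin n) : Prop :=
  ∃ a b, ι a = e.1 ∧ ι b = e.2 ∧ block c a b

theorem blk_disjoint {ι : Nd g → Fin n} (hι : Function.Injective ι) {c c' : ZMod g}
    {e : Fin n × Fin n} (h : blk ι c e) (h' : blk ι c' e) : c = c' := by
  obtain ⟨a, b, ha, hb, h⟩ := h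
  obtain ⟨a', b', ha', hb', h'⟩ := h'
  obtain rfl := hι (ha.trans ha'.symm)
  obtain rfl := hι (hb.trans hb'.symm)
  rcases a with (_ | _) | ⟨_ | _, β, k⟩ <;> rcases b with (_ | _) | ⟨_ | _, β', k'⟩ <;>
    first
      | exact h.elim
      | exact add_left_cancel (h.2.symm.trans h'.2)

theorem glue_ext {ι : Nd g → Fin n} (hι : Function.Injective ι) (c i j : ZMod g)
    (R : ZMod g → ZMod g → Bool) :
    glue (blk ι c) (ext ι (outer c R)) (ext ι (inner c i j)) =
      ext ι (fun a b => outer c R a b ∨ inner c i j a b) := by
  classical
  funext e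
  unfold glue
  rw [Bool.eq_iff_iff]
  split_ifs with h
  · unfold ext
    rw [decide_eq_true_iff, decide_eq_true_iff]
    constructor
    · rintro ⟨a, b, ha, hb, hY⟩
      exact ⟨a, b, ha, hb, Or.inr hY⟩
    · rintro ⟨a, b, ha, hb, hY | hY⟩
      · obtain ⟨a', b', ha', hb', h'⟩ := h
        obtain rfl := hι (ha.trans ha'.symm)
        obtain rfl := hι (hb.trans hb'.symm)
        exact absurd h' (outer_not_block hY)
      · exact ⟨a, b, ha, hb, hY⟩
  · unfold ext
    rw [decide_eq_true_iff, decide_eq_true_iff]
    constructor
    · rintro ⟨a, b, ha, hb, hY⟩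
      exact ⟨a, b, ha, hb, Or.inl hY⟩
    · rintro ⟨a, b, ha, hb, hY | hY⟩
      · exact ⟨a, b, ha, hb, hY⟩
      · exact absurd ⟨a, b, ha, hb, hY.1⟩ h

theorem ext_reach {ι : Nd g → Fin n} (hι : Function.Injective ι) (Y : Nd g → Nd g → Prop)
    (a b : Nd g) :
    Relation.ReflTransGen (fun u v => ext ι Y (u, v) = true) (ι a) (ι b) ↔
      Relation.ReflTransGen Y a b := by
  classical
  constructor
  · intro h
    have key : ∀ w, Relation.ReflTransGen (fun u v => ext ι Y (u, v) = true) (ι a) w →
        ∃ b', ι b' = w ∧ Relation.ReflTransGen Y a b' := by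
      intro w hw
      induction hw with
      | refl => exact ⟨a, rfl, .refl⟩
      | @tail u v _ h ih =>
        obtain ⟨b', rfl, hb'⟩ := ih
        unfold ext at h
        rw [decide_eq_true_iff] at h
        obtain ⟨p, q, hp, rfl, hY⟩ := h
        obtain rfl := hι hp
        exact ⟨q, rfl, hb'.tail hY⟩
    obtain ⟨b', hb', h'⟩ := key _ h
    obtain rfl := hι hb'
    exact h'
  · intro h
    induction h with
    | refl => exact .refl
    | @tail u v _ h ih =>
      refine ih.tail ?_
      unfold ext
      rw [decide_eq_true_iff]
      exact ⟨u, v, rfl, rfl, h⟩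

theorem stcon_glue {ι : Nd g → Fin n} (hι : Function.Injective ι) (c i j : ZMod g)
    (R : ZMod g → ZMod g → Bool) :
    stcon (ι (.inl false)) (ι (.inl true))
      (glue (blk ι c) (ext ι (outer c R)) (ext ι (inner c i j))) = R i j := by
  classical
  rw [glue_ext hι, Bool.eq_iff_iff]
  unfold stcon
  rw [decide_eq_true_iff, ext_reach hι, reach_iff]

/-- The bound for one block. -/
theorem block_bound [NeZero g] {ι : Nd g → Fin n} (hι : Function.Injective ι)
    (N : Network (Fin n × Fin n))
    (hN : N.ComputesUndirected (stcon (ι (.inl false)) (ι (.inl true)))) (c : ZMod g) :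
    2 ^ (g * g) ≤ (2 * Nat.card {e : N.C // blk ι c (N.var e)} + 2) ^
      (2 * Nat.card {e : N.C // blk ι c (N.var e)} + 2) := by
  have h := neciporuk N (blk ι c) (K := ZMod g → ZMod g → Bool) (fun R => ext ι (outer c R)) hN
    (by
      intro R R' h
      funext i j
      rw [← stcon_glue hι c i j R, ← stcon_glue hι c i j R', h])
  rw [Nat.card_fun, Nat.card_fun, Nat.card_zmod, ← pow_mul] at h
  simpa using h

/-- The blocks are disjoint. -/
theorem sum_blocks [NeZero g] {ι : Nd g → Fin n} (hι : Function.Injective ι)
    (N : Network (Fin n × Fin n)) :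
    ∑ c : ZMod g, Nat.card {e : N.C // blk ι c (N.var e)} ≤ N.size := by
  classical
  have := N.fin
  have h1 : ∑ c : ZMod g, Nat.card {e : N.C // blk ι c (N.var e)} =
      Nat.card (Σ c : ZMod g, {e : N.C // blk ι c (N.var e)}) := by
    rw [Nat.card_sigma]
  rw [h1]
  refine Nat.card_le_card_of_injective (fun p => (p.2.1 : N.C)) ?_
  rintro ⟨c, e, he⟩ ⟨c', e', he'⟩ h
  change e = e' at h
  subst h
  obtain rfl := blk_disjoint hι he he'
  rfl

end Sub

/-! ### Programs as undirected networks -/

section Programs

variable {V : Type} (P : Program V)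

/-- The undirected network of a program, with two contacts for each node. -/
def netOf : Network V where
  W := P.S ⊕ Bool
  source := Sum.inl P.start
  sink := Sum.inr true
  free _ _ := False
  C := P.S × Bool
  fin := haveI := P.fin; inferInstance
  tail c := Sum.inl c.1
  head c := P.next c.1 c.2
  var c := P.var c.1
  val c := c.2

theorem netOf_edge (x : V → Bool) (u v : P.S ⊕ Bool) :
    (netOf P).Edge x u v ↔ P.Step x u v := by
  constructor
  · rintro (h | ⟨⟨s, a⟩, hc, rfl, rfl⟩)
    · exact h.elim
    · have hc' : x (P.var s) = a := hc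
      exact ⟨s, rfl, by rw [hc']; rfl⟩
  · rintro ⟨s, rfl, rfl⟩
    exact Or.inr ⟨(s, x (P.var s)), rfl, rfl, rfl⟩

theorem netOf_computes {f : (V → Bool) → Bool} (hP : P.Computes f) :
    (netOf P).ComputesUndirected f := by
  intro x
  rw [hP x]
  have hstep : ∀ u v : P.S ⊕ Bool, P.Step x u v →
      (Relation.ReflTransGen (P.Step x) u (Sum.inr true) ↔
        Relation.ReflTransGen (P.Step x) v (Sum.inr true)) := by
    rintro u v ⟨s, rfl, rfl⟩
    constructor
    · intro h
      rcases Relation.ReflTransGen.cases_head h with h | ⟨w, ⟨s', hs', rfl⟩, h⟩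
      · exact absurd h (by simp)
      · obtain rfl := Sum.inl.inj hs'
        exact h
    · intro h
      exact h.head ⟨s, rfl, rfl⟩
  constructor
  · intro h
    have h' : Relation.ReflTransGen
        (fun u v : P.S ⊕ Bool => (netOf P).Edge x u v ∨ (netOf P).Edge x v u)
        (Sum.inl P.start) (Sum.inr true) := by
      refine Relation.ReflTransGen.mono ?_ _ _ h
      intro u v huv
      exact Or.inl ((netOf_edge P x u v).mpr huv)
    exact h'
  · intro h
    have key : ∀ w : P.S ⊕ Bool, Relation.ReflTransGen
        (fun u v : P.S ⊕ Bool => (netOf P).Edge x u v ∨ (netOf P).Edge x v u)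
        (Sum.inl P.start) w →
        (Relation.ReflTransGen (P.Step x) (Sum.inl P.start) (Sum.inr true) ↔
          Relation.ReflTransGen (P.Step x) w (Sum.inr true)) := by
      intro w hw
      induction hw with
      | refl => exact Iff.rfl
      | tail _ h ih =>
        rcases h with h | h
        · exact ih.trans (hstep _ _ ((netOf_edge P x _ _).mp h))
        · exact ih.trans (hstep _ _ ((netOf_edge P x _ _).mp h)).symm
    exact (key _ h).mpr .refl

theorem netOf_size : (netOf P).size = 2 * P.size := by
  have : (netOf P).size = Nat.card (P.S × Bool) := rfl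
  rw [this, Nat.card_prod]
  simp [Program.size]
  ring

end Programs

/-! ### The bounds -/

theorem block_arith {g L r : ℕ} (hL : 2 ≤ L) (hg : g < 2 ^ (L - 1)) (h : 2 ^ (g * g) ≤ r ^ r) :
    g * g ≤ 2 * (L - 1) * r := by
  by_cases hr : r < g * g
  · have h1 : r < 2 ^ (2 * (L - 1)) := by
      calc r < g * g := hr
        _ ≤ 2 ^ (L - 1) * 2 ^ (L - 1) := Nat.mul_le_mul hg.le hg.le
        _ = 2 ^ (2 * (L - 1)) := by rw [← pow_add]; ring_nf
    have h2 : 2 ^ (g * g) ≤ 2 ^ (2 * (L - 1) * r) := by
      calc 2 ^ (g * g) ≤ r ^ r := h
        _ ≤ (2 ^ (2 * (L - 1))) ^ r := Nat.pow_le_pow_left h1.le r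
        _ = 2 ^ (2 * (L - 1) * r) := by rw [← pow_mul]
    exact (Nat.pow_le_pow_iff_right (by norm_num)).mp h2
  · calc g * g ≤ 1 * r := by omega
      _ ≤ 2 * (L - 1) * r := Nat.mul_le_mul_right r (by omega)

theorem log_small (L : ℕ) (hL : 7 ≤ L) : 20 * L < 2 ^ L + 19 := by
  induction L, hL using Nat.le_induction with
  | base => norm_num
  | succ L hL ih =>
    have : 2 ^ 7 ≤ 2 ^ L := Nat.pow_le_pow_right (by norm_num) hL
    rw [pow_succ]
    omega

theorem final_arith {g m C : ℕ} (hg : 31 ≤ g) (hm : 5 * m ≤ g)
    (h : g * (g * g) ≤ 4 * m * (C + g)) : (4 * g + 5) ^ 3 ≤ 256 * (m + 1) * C := by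
  have hm0 : 0 < m := by
    rcases Nat.eq_zero_or_pos m with h0 | h0
    · subst h0
      have : 0 < g * (g * g) := by positivity
      omega
    · exact h0
  have h1 : m * (4 * g + 5) ^ 3 + 256 * m * (m + 1) * g ≤ 64 * (m + 1) * (g * (g * g)) := by
    have e1 : 25 * (m * (4 * g + 5) ^ 3 + 256 * m * (m + 1) * g) =
        1600 * m * g ^ 3 + 5 * (5 * m) * (240 * g ^ 2 + 556 * g + 125) +
          256 * (5 * m) ^ 2 * g := by ring
    have e2 : 5 * (5 * m) * (240 * g ^ 2 + 556 * g + 125) ≤
        5 * g * (240 * g ^ 2 + 556 * g + 125) :=
      Nat.mul_le_mul_right _ (Nat.mul_le_mul_left 5 hm)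
    have e3 : 256 * (5 * m) ^ 2 * g ≤ 256 * g ^ 2 * g :=
      Nat.mul_le_mul_right _ (Nat.mul_le_mul_left 256 (Nat.pow_le_pow_left hm 2))
    have e4 : 5 * g * (240 * g ^ 2 + 556 * g + 125) + 256 * g ^ 2 * g ≤ 1600 * g ^ 3 := by
      nlinarith [Nat.mul_le_mul hg (le_refl (g * g)), Nat.mul_le_mul hg (le_refl g)]
    have e5 : 25 * (64 * (m + 1) * (g * (g * g))) = 1600 * m * g ^ 3 + 1600 * g ^ 3 := by ring
    omega
  have h2 : 64 * (m + 1) * (g * (g * g)) ≤ 64 * (m + 1) * (4 * m * (C + g)) :=
    Nat.mul_le_mul_left _ h
  have h3 : 64 * (m + 1) * (4 * m * (C + g)) = m * (256 * (m + 1) * C) +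
      256 * m * (m + 1) * g := by ring
  have h4 : m * (4 * g + 5) ^ 3 ≤ m * (256 * (m + 1) * C) := by omega
  exact Nat.le_of_mul_le_mul_left h4 hm0

theorem embed {g n : ℕ} [NeZero g] (hn : 4 * g + 2 ≤ n) {s t : Fin n} (hst : s ≠ t) :
    ∃ ι : Nd g → Fin n, Function.Injective ι ∧ ι (.inl false) = s ∧ ι (.inl true) = t := by
  classical
  have h1 : Fintype.card (Bool × Bool × ZMod g) ≤ Fintype.card {v : Fin n // v ≠ s ∧ v ≠ t} := by
    have h2 : Fintype.card {v : Fin n // v ≠ s ∧ v ≠ t} = n - 2 := by
      rw [Fintype.card_subtype]
      have : (Finset.univ.filter fun v : Fin n => v ≠ s ∧ v ≠ t) = ({s, t} : Finset (Fin n))ᶜ := by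
        ext v
        simp
      rw [this, Finset.card_compl, Finset.card_pair hst, Fintype.card_fin]
    rw [h2, Fintype.card_prod, Fintype.card_prod, Fintype.card_bool, ZMod.card]
    omega
  obtain ⟨e⟩ := Function.Embedding.nonempty_of_card_le h1
  refine ⟨Sum.elim (fun a => if a then t else s) (fun p => (e p).1), ?_, rfl, rfl⟩
  rintro (a | p) (a' | p') h
  · rcases a with _ | _ <;> rcases a' with _ | _
    · rfl
    · exact absurd h hst
    · exact absurd h hst.symm
    · rfl
  · rcases a with _ | _
    · exact absurd h.symm (e p').2.1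
    · exact absurd h.symm (e p').2.2
  · rcases a' with _ | _
    · exact absurd h (e p).2.1
    · exact absurd h (e p).2.2
  · exact congrArg Sum.inr (e.injective (Subtype.ext h))

theorem lower {n : ℕ} (hn : 128 ≤ n) {s t : Fin n} (hst : s ≠ t) (N : Network (Fin n × Fin n))
    (hN : N.ComputesUndirected (stcon s t)) : n ^ 3 ≤ 256 * Nat.log 2 n * N.size := by
  obtain ⟨g, hg⟩ : ∃ g, g = (n - 2) / 4 := ⟨_, rfl⟩
  have hg1 : 4 * g + 2 ≤ n := by omega
  have hg2 : n ≤ 4 * g + 5 := by omega
  have hg3 : 31 ≤ g := by omega
  have : NeZero g := ⟨by omega⟩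
  obtain ⟨L, hL⟩ : ∃ L, L = Nat.log 2 n := ⟨_, rfl⟩
  have hL1 : 2 ^ L ≤ n := by
    rw [hL]
    exact Nat.pow_log_le_self 2 (by omega)
  have hL2 : n < 2 ^ (L + 1) := by
    rw [hL]
    exact Nat.lt_pow_succ_log_self (by norm_num) n
  have hL3 : 7 ≤ L := by
    rw [hL]
    exact (Nat.le_log_iff_pow_le (by norm_num) (by omega)).mpr (by omega)
  have hgL : g < 2 ^ (L - 1) := by
    have : 2 ^ (L + 1) = 4 * 2 ^ (L - 1) := by
      have : L + 1 = (L - 1) + 2 := by omega
      rw [this, pow_add]
      ring
    omega
  have hmg : 5 * (L - 1) ≤ g := by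
    have := log_small L hL3
    omega
  obtain ⟨ι, hι, rfl, rfl⟩ := embed (g := g) hg1 hst
  have hblock : ∀ c : ZMod g,
      g * g ≤ 2 * (L - 1) * (2 * Nat.card {e : N.C // blk ι c (N.var e)} + 2) := fun c =>
    block_arith (by omega) hgL (block_bound hι N hN c)
  have hsum : ∑ _c : ZMod g, g * g ≤
      ∑ c : ZMod g, 2 * (L - 1) * (2 * Nat.card {e : N.C // blk ι c (N.var e)} + 2) :=
    Finset.sum_le_sum fun c _ => hblock c
  rw [Finset.sum_const, Finset.card_univ, ZMod.card, smul_eq_mul, ← Finset.mul_sum,
    Finset.sum_add_distrib, ← Finset.mul_sum, Finset.sum_const, Finset.card_univ, ZMod.card,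
    smul_eq_mul] at hsum
  have h1 := sum_blocks hι N
  have h2 : g * (g * g) ≤ 4 * (L - 1) * (N.size + g) := by
    calc g * (g * g) ≤ 2 * (L - 1) *
        (2 * ∑ c : ZMod g, Nat.card {e : N.C // blk ι c (N.var e)} + g * 2) := hsum
      _ ≤ 2 * (L - 1) * (2 * N.size + g * 2) :=
        Nat.mul_le_mul_left _ (Nat.add_le_add_right (Nat.mul_le_mul_left 2 h1) _)
      _ = 4 * (L - 1) * (N.size + g) := by ring
  have h3 := final_arith hg3 hmg h2
  have h4 : L - 1 + 1 = L := by omega
  rw [h4] at h3
  calc n ^ 3 ≤ (4 * g + 5) ^ 3 := Nat.pow_le_pow_left hg2 3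
    _ ≤ 256 * L * N.size := h3
    _ = 256 * Nat.log 2 n * N.size := by rw [hL]

/-- **Theorem.** Let `n ≥ 128`, and let `s ≠ t` be vertices.

1. Reachability of `t` from `s` in directed graphs on `n` vertices (a function of `n ^ 2` variables)
   has a directed network without free edges in which every variable labels exactly one contact; as
   an undirected network it computes reachability in undirected graphs.
2. Every undirected network for reachability in directed graphs has at least
   `n ^ 3 / (256 log n)` contacts.
3. Every deterministic branching program for it has at least `n ^ 3 / (512 log n)` nodes. -/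
theorem result (n : ℕ) (hn : 128 ≤ n) (s t : Fin n) (hst : s ≠ t) :
    (∃ N : Network (Fin n × Fin n), (∀ u v, ¬ N.free u v) ∧ (∀ v, N.sizeAt v = 1) ∧
      N.size = n ^ 2 ∧ N.ComputesDirected (stcon s t) ∧ N.ComputesUndirected (ustcon s t)) ∧
    (∀ N : Network (Fin n × Fin n), N.ComputesUndirected (stcon s t) →
      n ^ 3 ≤ 256 * Nat.log 2 n * N.size) ∧
    (∀ P : Program (Fin n × Fin n), P.Computes (stcon s t) →
      n ^ 3 ≤ 512 * Nat.log 2 n * P.size) := by
  refine ⟨⟨graphNet s t, fun _ _ h => h, graphNet_sizeAt s t, graphNet_size s t,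
    graphNet_directed s t, graphNet_undirected s t⟩, fun N hN => lower hn hst N hN, ?_⟩
  intro P hP
  have h := lower hn hst (netOf P) (netOf_computes P hP)
  rw [netOf_size] at h
  calc n ^ 3 ≤ 256 * Nat.log 2 n * (2 * P.size) := h
    _ = 512 * Nat.log 2 n * P.size := by ring

end Pool.Agent.Results.MP_768539_lc.ReachabilityNetworks
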